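import Mathlib

/-!
# The places above `3`: values of `x³ + 16 d³`

`k` is a field with a valuation `v` with `v 3 < 1` and such that `v 3` is not a cube.
-/

set_option autoImplicit false

namespace Pool.Agent.Lib.MP_1a91b9_ntT.PL

open WithZero

set_option linter.unusedSectionVars false

section
variable {k : Type*} [Field k] (v : Valuation k ℤᵐ⁰) (h3 : v 3 < 1) (hn : ∀ γ : ℤᵐ⁰, γ ^ 3 ≠ v 3)

include h3

theorem val_two : v 2 = 1 := by
  have e : (2 : k) = -1 + 3 := by norm_num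
  rw [e, Valuation.map_add_eq_of_lt_left, Valuation.map_neg, map_one]
  rwa [Valuation.map_neg, map_one]

theorem val_four : v 4 = 1 := by
  have e : (4 : k) = 2 * 2 := by norm_num
  rw [e, map_mul, val_two v h3, one_mul]

theorem val_five : v 5 = 1 := by
  have e : (5 : k) = 2 + 3 := by norm_num
  rw [e, Valuation.map_add_eq_of_lt_left, val_two v h3]
  rwa [val_two v h3]

theorem two_ne : (2 : k) ≠ 0 := by
  intro h
  have := val_two v h3
  rw [h, map_zero] at this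
  exact zero_ne_one this

include hn

theorem three_ne : v 3 ≠ 0 := by
  intro h
  exact hn 0 (by rw [h, zero_pow (by norm_num)])

/-- the number `v(3) v(d)³` is not a cube -/
theorem not_cube {d : k} (hd : d ≠ 0) (γ : ℤᵐ⁰) : γ ^ 3 ≠ v 3 * v d ^ 3 := by
  intro h
  have hd0 : v d ≠ 0 := (Valuation.ne_zero_iff _).2 hd
  apply hn (γ / v d)
  rw [div_pow, h, mul_div_assoc, div_self (pow_ne_zero 3 hd0), mul_one]

/-- the value of `x³ + 16 d³` -/
theorem val_cube {d : k} (hd : d ≠ 0) (x : k) :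
    v (x ^ 3 + 16 * d ^ 3) = max (v (x + d) ^ 3) (v 3 * v d ^ 3) := by
  obtain ⟨s, hs⟩ : ∃ s, s = x + d := ⟨_, rfl⟩
  have hx : x = s - d := by rw [hs]; ring
  rw [← hs]
  have hd0 : 0 < v d := zero_lt_iff.2 ((Valuation.ne_zero_iff _).2 hd)
  have h30 : 0 < v 3 := zero_lt_iff.2 (three_ne v h3 hn)
  have e : x ^ 3 + 16 * d ^ 3 = s ^ 3 + (3 * (5 * d ^ 3) + 3 * (d * s * (d - s))) := by
    rw [hx]; ring
  have hsub : v (d - s) ≤ max (v d) (v s) := Valuation.map_sub _ _ _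
  rw [e]
  rcases le_or_gt (v d) (v s) with h | h
  · -- the cube dominates
    have hs0 : 0 < v s := hd0.trans_le h
    rw [max_eq_right h] at hsub
    have h1 : v (3 * (5 * d ^ 3) + 3 * (d * s * (d - s))) ≤ v 3 * v s ^ 3 := by
      refine (Valuation.map_add _ _ _).trans (max_le ?_ ?_)
      · rw [map_mul, map_mul, map_pow, val_five v h3, one_mul]
        gcongr
      · rw [map_mul, map_mul, map_mul, pow_three, ← mul_assoc (v s)]
        gcongr
    have h2 : v 3 * v s ^ 3 < v s ^ 3 :=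
      mul_lt_of_lt_one_left (pow_pos hs0 3) h3
    rw [Valuation.map_add_eq_of_lt_left]
    · rw [map_pow, max_eq_left]
      exact (mul_le_mul_right (pow_le_pow_left₀ zero_le h 3) (v 3)).trans h2.le
    · rw [map_pow]
      exact h1.trans_lt h2
  · rw [max_eq_left h.le] at hsub
    have h1 : v (3 * (d * s * (d - s))) < v 3 * v d ^ 3 := by
      rw [map_mul, map_mul, map_mul, pow_three]
      refine mul_lt_mul_of_pos_left ?_ h30
      calc v d * v s * v (d - s) ≤ v d * v s * v d := by gcongr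
        _ < v d * v d * v d := by
          refine mul_lt_mul_of_pos_right (mul_lt_mul_of_pos_left h hd0) hd0
        _ = v d * (v d * v d) := mul_assoc _ _ _
    have h2 : v (3 * (5 * d ^ 3)) = v 3 * v d ^ 3 := by
      rw [map_mul, map_mul, map_pow, val_five v h3, one_mul]
    have h4 : v (3 * (5 * d ^ 3) + 3 * (d * s * (d - s))) = v 3 * v d ^ 3 := by
      rw [Valuation.map_add_eq_of_lt_left, h2]
      rw [h2]
      exact h1
    rcases lt_trichotomy (v s ^ 3) (v 3 * v d ^ 3) with h5 | h5 | h5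
    · rw [Valuation.map_add_eq_of_lt_right, h4, max_eq_right h5.le]
      rw [h4, map_pow]
      exact h5
    · exact absurd h5 (not_cube v h3 hn hd _)
    · rw [Valuation.map_add_eq_of_lt_left, map_pow, max_eq_left h5.le]
      rw [h4, map_pow]
      exact h5

variable {d : k} (hd : d ≠ 0)
include hd

theorem val_x_eq {x : k} (h : v (x + d) ^ 3 < v 3 * v d ^ 3) : v x = v d := by
  have hd0 : 0 < v d := zero_lt_iff.2 ((Valuation.ne_zero_iff _).2 hd)
  have h1 : v (x + d) < v d := by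
    by_contra hc
    rw [not_lt] at hc
    have h2 : v d ^ 3 ≤ v (x + d) ^ 3 := pow_le_pow_left₀ zero_le hc 3
    have h4 : v 3 * v d ^ 3 < v d ^ 3 := mul_lt_of_lt_one_left (pow_pos hd0 3) h3
    exact absurd (h.trans h4) (not_lt.2 h2)
  have e : x = (x + d) - d := by ring
  rw [e, Valuation.map_sub_eq_of_lt_right]
  exact h1

theorem val_y_sq {x y : k} (he : y ^ 2 = x ^ 3 + 16 * d ^ 3) (h : v (x + d) ^ 3 < v 3 * v d ^ 3) :
    v y ^ 2 = v 3 * v d ^ 3 := by
  rw [← map_pow, he, val_cube v h3 hn hd, max_eq_right h.le]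

theorem near_or {x₁ y₁ x₂ y₂ : k} (he₁ : y₁ ^ 2 = x₁ ^ 3 + 16 * d ^ 3)
    (he₂ : y₂ ^ 2 = x₂ ^ 3 + 16 * d ^ 3) (h₁ : v (x₁ + d) ^ 3 < v 3 * v d ^ 3)
    (h₂ : v (x₂ + d) ^ 3 < v 3 * v d ^ 3) : v (y₁ - y₂) < v y₁ ∨ v (y₁ + y₂) < v y₁ := by
  have e1 := val_y_sq v h3 hn hd he₁ h₁
  have e2 := val_y_sq v h3 hn hd he₂ h₂
  have f1 := val_x_eq v h3 hn hd h₁
  have f2 := val_x_eq v h3 hn hd h₂
  have hd0 : 0 < v d := zero_lt_iff.2 ((Valuation.ne_zero_iff _).2 hd)
  have h30 : 0 < v 3 := zero_lt_iff.2 (three_ne v h3 hn)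
  have hθ : 0 < v 3 * v d ^ 3 := mul_pos h30 (pow_pos hd0 3)
  have hyy : v y₁ = v y₂ := (pow_left_inj₀ zero_le zero_le two_ne_zero).1 (e1.trans e2.symm)
  by_contra hc
  rw [not_or, not_lt, not_lt] at hc
  obtain ⟨c1, c2⟩ := hc
  have h5 : v 3 * v d ^ 3 ≤ v ((y₁ - y₂) * (y₁ + y₂)) := by
    rw [map_mul, ← e1, pow_two]
    gcongr
  have e3 : (y₁ - y₂) * (y₁ + y₂) = (x₁ - x₂) ^ 3 + 3 * (x₁ * x₂ * (x₁ - x₂)) := by
    linear_combination he₁ - he₂
  have hδ : v (x₁ - x₂) ^ 3 < v 3 * v d ^ 3 := by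
    have e4 : x₁ - x₂ = (x₁ + d) - (x₂ + d) := by ring
    rw [e4]
    rcases le_total (v (x₁ + d)) (v (x₂ + d)) with h | h
    · have h6 := Valuation.map_sub v (x₁ + d) (x₂ + d)
      rw [max_eq_right h] at h6
      exact (pow_le_pow_left₀ zero_le h6 3).trans_lt h₂
    · have h6 := Valuation.map_sub v (x₁ + d) (x₂ + d)
      rw [max_eq_left h] at h6
      exact (pow_le_pow_left₀ zero_le h6 3).trans_lt h₁
  have hδ' : v (x₁ - x₂) < v d := by
    by_contra hcc
    rw [not_lt] at hcc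
    have h2 : v d ^ 3 ≤ v (x₁ - x₂) ^ 3 := pow_le_pow_left₀ zero_le hcc 3
    have h4 : v 3 * v d ^ 3 < v d ^ 3 := mul_lt_of_lt_one_left (pow_pos hd0 3) h3
    exact absurd (hδ.trans h4) (not_lt.2 h2)
  have h7 : v ((y₁ - y₂) * (y₁ + y₂)) < v 3 * v d ^ 3 := by
    rw [e3]
    refine Valuation.map_add_lt _ (by rw [map_pow]; exact hδ) ?_
    rw [map_mul, map_mul, map_mul, f1, f2]
    refine mul_lt_mul_of_pos_left ?_ h30
    calc v d * v d * v (x₁ - x₂) < v d * v d * v d :=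
          mul_lt_mul_of_pos_left hδ' (mul_pos hd0 hd0)
      _ = v d ^ 3 := by rw [pow_three, mul_assoc]
  exact absurd h7 (not_lt.2 h5)

/-- the difference of two near points is far -/
theorem far_of_near {x₁ y₁ x₂ y₂ : k} (he₁ : y₁ ^ 2 = x₁ ^ 3 + 16 * d ^ 3)
    (h₁ : v (x₁ + d) ^ 3 < v 3 * v d ^ 3)
    (h₂ : v (x₂ + d) ^ 3 < v 3 * v d ^ 3) (hy : v (y₁ - y₂) < v y₁) (hx : x₁ ≠ x₂) :
    v 3 * v d ^ 3 < v (((y₁ + y₂) / (x₁ - x₂)) ^ 2 - x₁ - x₂ + d) ^ 3 := by
  have e1 := val_y_sq v h3 hn hd he₁ h₁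
  have hd0 : 0 < v d := zero_lt_iff.2 ((Valuation.ne_zero_iff _).2 hd)
  have h30 : 0 < v 3 := zero_lt_iff.2 (three_ne v h3 hn)
  have hθ : 0 < v 3 * v d ^ 3 := mul_pos h30 (pow_pos hd0 3)
  have hs : v (y₁ + y₂) = v y₁ := by
    have e : y₁ + y₂ = 2 * y₁ - (y₁ - y₂) := by ring
    rw [e, Valuation.map_sub_eq_of_lt_left]
    · rw [map_mul, val_two v h3, one_mul]
    · rwa [map_mul, val_two v h3, one_mul]
  have hδ0 : 0 < v (x₁ - x₂) := zero_lt_iff.2 ((Valuation.ne_zero_iff _).2 (sub_ne_zero.2 hx))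
  have hδ : v (x₁ - x₂) ^ 3 < v 3 * v d ^ 3 := by
    have e4 : x₁ - x₂ = (x₁ + d) - (x₂ + d) := by ring
    rw [e4]
    rcases le_total (v (x₁ + d)) (v (x₂ + d)) with h | h
    · have h6 := Valuation.map_sub v (x₁ + d) (x₂ + d)
      rw [max_eq_right h] at h6
      exact (pow_le_pow_left₀ zero_le h6 3).trans_lt h₂
    · have h6 := Valuation.map_sub v (x₁ + d) (x₂ + d)
      rw [max_eq_left h] at h6
      exact (pow_le_pow_left₀ zero_le h6 3).trans_lt h₁
  have hl : v (((y₁ + y₂) / (x₁ - x₂)) ^ 2) = v 3 * v d ^ 3 / v (x₁ - x₂) ^ 2 := by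
    rw [map_pow, map_div₀, hs, div_pow, e1]
  have hl3 : v 3 * v d ^ 3 < v (((y₁ + y₂) / (x₁ - x₂)) ^ 2) ^ 3 := by
    rw [hl, div_pow, lt_div_iff₀ (pow_pos (pow_pos hδ0 2) 3)]
    have e5 : (v (x₁ - x₂) ^ 2) ^ 3 = v (x₁ - x₂) ^ 3 * v (x₁ - x₂) ^ 3 := by
      rw [← pow_mul, ← pow_add]
    have e6 : (v 3 * v d ^ 3) ^ 3 = (v 3 * v d ^ 3) * ((v 3 * v d ^ 3) * (v 3 * v d ^ 3)) :=
      pow_three _
    rw [e5, e6]
    refine mul_lt_mul_of_pos_left ?_ hθ
    exact mul_lt_mul'' hδ hδ zero_le zero_le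
  have e7 : ((y₁ + y₂) / (x₁ - x₂)) ^ 2 - x₁ - x₂ + d =
      ((y₁ + y₂) / (x₁ - x₂)) ^ 2 + (3 * d - (x₁ + d) - (x₂ + d)) := by ring
  have hlt : ∀ z : k, v z ^ 3 ≤ v 3 * v d ^ 3 → v z < v (((y₁ + y₂) / (x₁ - x₂)) ^ 2) := by
    intro z hz
    by_contra hc
    rw [not_lt] at hc
    exact absurd (hl3.trans_le (pow_le_pow_left₀ zero_le hc 3)) (not_lt.2 hz)
  have h8 : v (3 * d - (x₁ + d) - (x₂ + d)) < v (((y₁ + y₂) / (x₁ - x₂)) ^ 2) := by
    refine Valuation.map_sub_lt _ (Valuation.map_sub_lt _ (hlt _ ?_) (hlt _ h₁.le)) (hlt _ h₂.le)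
    rw [map_mul, mul_pow]
    refine mul_le_mul_left ?_ _
    exact pow_le_of_le_one zero_le h3.le (by norm_num)
  rw [e7, Valuation.map_add_eq_of_lt_left]
  · exact hl3
  · exact h8

end

/-- A subgroup such that for all elements `a`, `b` outside of it `a - b` or `a + b` is in it. -/
theorem index_le_three {G : Type*} [AddCommGroup G] (H : AddSubgroup G)
    (h : ∀ a b : G, a ∉ H → b ∉ H → a - b ∈ H ∨ a + b ∈ H) : 1 ≤ H.index ∧ H.index ≤ 3 := by
  classical
  by_cases ht : H = ⊤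
  · rw [ht, AddSubgroup.index_top]
    omega
  obtain ⟨a, ha⟩ : ∃ a : G, a ∉ H := by
    by_contra hc
    push Not at hc
    exact ht (eq_top_iff.2 fun x _ => hc x)
  have hs : Function.Surjective (fun i : Fin 3 => (QuotientAddGroup.mk
      (if i = 0 then (0 : G) else if i = 1 then a else -a) : G ⧸ H)) := by
    intro q
    obtain ⟨b, rfl⟩ := QuotientAddGroup.mk_surjective q
    by_cases hb : b ∈ H
    · refine ⟨0, ?_⟩
      rw [QuotientAddGroup.eq]
      simpa using hb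
    · rcases h a b ha hb with h1 | h1
      · refine ⟨1, ?_⟩
        rw [QuotientAddGroup.eq]
        have : -a + b = -(a - b) := by abel
        simp only [Fin.isValue, one_ne_zero, if_false, if_true]
        rw [this]
        exact neg_mem h1
      · refine ⟨2, ?_⟩
        rw [QuotientAddGroup.eq]
        simp only [Fin.isValue, Fin.reduceEq, if_false, neg_neg]
        exact h1
  have hf : Finite (G ⧸ H) := Finite.of_surjective _ hs
  constructor
  · exact Nat.card_pos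
  · have := Nat.card_le_card_of_surjective _ hs
    rwa [Nat.card_eq_fintype_card (α := Fin 3), Fintype.card_fin] at this

end Pool.Agent.Lib.MP_1a91b9_ntT.PL
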