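import Pool.Agent.Lib.MP_1a91b9_ntT.PL.Tower
import Pool.Agent.Lib.MP_1a91b9_ntT.PT.Main
import Pool.Agent.Lib.MP_1a91b9_ntT.CT.Fin

/-!
# The `ℓ`-part of the conjecture for all primes `ℓ ≠ 3`
-/

set_option autoImplicit false

namespace Pool.Agent.Lib.MP_1a91b9_ntT.PL

open NumberField IsDedekindDomain WeierstrassCurve Module
open Pool.Agent.Lib.MP_1a91b9_ntT.S9 (tam)
open Pool.Agent.Lib.MP_1a91b9_ntT3.S9 (ShaP FormulaQ)
open scoped Classical

theorem coprime_two_of_odd {n : ℕ} (h : Odd n) : n.Coprime 2 := h.coprime_two_right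

/-- The case `ℓ = 2`. -/
theorem concl_two (N L M : Type) [Field N] [NumberField N] [Field L] [NumberField L]
    [Field M] [NumberField M] [Algebra N L] [Algebra L M] [IsGalois ℚ M] (n : ℕ)
    (hM : finrank ℚ M = 2 ^ n) (hL : S8.RamCond L) (W : WeierstrassCurve N)
    (C : VariableChange L) (hC : C • (W.baseChange L) = E L) : Concl 2 W := by
  obtain ⟨⟨g', q, hg', hgW', -, hf, -, h1, h2, h3⟩, h4, h5, h6⟩ := CT.thmC N L M n hM hL W C hC
  refine ⟨fun g hg hgW => ?_, h4, fun v => coprime_two_of_odd (h5 v), hf, coprime_two_of_odd h6⟩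
  have e : g = g' := S4.entire_eq hg hg' fun s hs => by
    rw [hgW s hs, hgW' s (by linarith)]
  subst e
  refine ⟨q, ?_, coprime_two_of_odd h2, h3⟩
  obtain ⟨k, hk⟩ := h1
  exact ⟨1, -k, by rw [hk]; push_cast; ring⟩

/-- **The theorem** for the curves over `N` which become isomorphic to `E` over `L`. -/
theorem main {ℓ : ℕ} [hℓ : Fact ℓ.Prime] (h3 : ℓ ≠ 3) (N L M : Type) [Field N] [NumberField N]
    [Field L] [NumberField L] [Field M] [NumberField M] [Algebra N L] [Algebra L M] [Algebra K M]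
    [IsGalois K M] (n : ℕ) (hM : finrank K M = ℓ ^ n) (hL : PT.RamP ℓ L) (W : WeierstrassCurve N)
    (C : VariableChange L) (hC : C • W.baseChange L = ⟨0, 0, 1, 0, 0⟩) : Concl ℓ W := by
  by_cases h2 : ℓ = 2
  · subst h2
    obtain ⟨M', _, _, aMM', m, hG, hm⟩ := PT.exists_closure_two M n hM
    let aLM' : Algebra L M' := ((algebraMap M M').comp (algebraMap L M)).toAlgebra
    exact concl_two N L M' m hm (PT.ramCond_of_card L hL) W C hC
  · have h5 : 5 ≤ ℓ := by
      have h4 := hℓ.out.two_le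
      by_contra hlt
      have h6 : ℓ = 4 := by omega
      have h7 := hℓ.out
      rw [h6] at h7
      revert h7
      decide
    obtain ⟨-, hdat⟩ := PT.exists_dat hℓ.out h3 N L M n hM hL
    refine prime_part h5 N L M ?_ ?_ ?_ W C hC
    · rw [hM]
      intro h
      exact h2 ((Nat.prime_dvd_prime_iff_eq Nat.prime_two hℓ.out).1
        (Nat.prime_two.dvd_of_dvd_pow h)).symm
    · rw [hM]
      intro h
      exact h3 ((Nat.prime_dvd_prime_iff_eq Nat.prime_three hℓ.out).1
        (Nat.prime_three.dvd_of_dvd_pow h)).symm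
    · rcases hdat with ⟨a, h⟩ | ⟨F, i1, i2, i3, i4, h1, h2, h⟩
      · exact Or.inl ⟨a, goodF_tower h5 N h⟩
      · exact Or.inr ⟨F, i1, i2, i3, i4, h1, h2, goodF_tower h5 F h⟩

end Pool.Agent.Lib.MP_1a91b9_ntT.PL
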