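import Pool.Agent.Lib.MP_1a91b9_ntT.CT.Sb
import Pool.Agent.Lib.MP_1a91b9_ntT.CT.Sl
import Pool.Agent.Lib.MP_1a91b9_ntT.CT.Sd
import Pool.Agent.Lib.MP_1a91b9_ntT.S9.Fin
import Pool.Agent.Lib.MP_1a91b9_ntT3.S9.Defs

/-!
# The `ℓ`-primary part of the Tate-Shafarevich group: descent to a subfield

`N' = N` or `N'` is a quadratic extension of `N`, `N'` contains `K`, and `W` over `N` is isomorphic
to `E` over `N'`.
-/

set_option autoImplicit false

namespace Pool.Agent.Lib.MP_1a91b9_ntT.PL

open WeierstrassCurve NumberField IsDedekindDomain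
open Pool.Agent.Lib.MP_1a91b9_ntT.S9 Pool.Agent.Lib.MP_1a91b9_ntT.S5
open Pool.Agent.Lib.MP_1a91b9_ntT.CT
open Pool.Agent.Lib.MP_1a91b9_ntT3.S9 (ShaP)
open scoped Classical

universe u

theorem algClosed_of_equiv {L : Type*} [Field L] (e : L ≃+* ℂ) : IsAlgClosed L := by
  refine IsAlgClosed.of_exists_root _ fun p _ hi => ?_
  have h1 : (p.map (e : L →+* ℂ)).degree ≠ 0 := by
    rw [Polynomial.degree_map]
    exact (Polynomial.degree_pos_of_irreducible hi).ne'
  obtain ⟨z, hz⟩ := IsAlgClosed.exists_root _ h1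
  refine ⟨e.symm z, ?_⟩
  apply e.injective
  rw [Polynomial.IsRoot.def, Polynomial.eval_map] at hz
  rw [map_zero, ← hz]
  have h2 := Polynomial.hom_eval₂ p (RingHom.id L) (e : L →+* ℂ) (e.symm z)
  rw [RingHom.comp_id] at h2
  have h3 : ((e : L →+* ℂ) (e.symm z)) = z := e.apply_symm_apply z
  rw [h3] at h2
  rw [← h2]
  rfl

/-- a cocycle is trivial over an algebraically closed field -/
theorem triv_closed {k : Type*} [Field k] (W : WeierstrassCurve k) (L : Type*) [Field L]
    [Algebra k L] [IsAlgClosed L] (c : Gal k → Pts W (AlgebraicClosure k)) (h1 : c 1 = 0) :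
    c ∈ trivOver W L := by
  intro i
  refine ⟨0, fun σ τ h => ?_⟩
  have hσ : ∀ x, σ x = x := by
    intro x
    obtain ⟨y, rfl⟩ := (IsAlgClosed.algebraMap_bijective_of_isIntegral (k := L)
      (K := AlgebraicClosure L)).2 x
    exact σ.commutes y
  have hτ : τ = 1 := by
    ext x
    apply i.injective
    change i (τ x) = i ((1 : Gal k) x)
    rw [h x, hσ, AlgEquiv.one_apply]
  rw [hτ, h1, _root_.map_zero, _root_.map_zero, sub_zero]

/-- the infinite places of an extension of `K` are complex -/
theorem isComplex_of_K {F : Type*} [Field F] [Algebra K F] (v : InfinitePlace F) :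
    v.IsComplex := by
  rw [← InfinitePlace.not_isReal_iff_isComplex]
  intro h
  have h1 : (algebraMap K F om) ^ 2 + algebraMap K F om + 1 = 0 := by
    have h2 : om ^ 2 + om + 1 = 0 := by
      have h5 : (om - 1) * (om ^ 2 + om + 1) = 0 := by
        have h6 : om ^ 3 = 1 := om_spec.pow_eq_one
        linear_combination h6
      exact (mul_eq_zero.1 h5).resolve_left (sub_ne_zero.2 (om_spec.ne_one (by norm_num)))
    rw [← map_pow, ← map_add, ← map_one (algebraMap K F), ← map_add, h2, map_zero]
  have h3 := congrArg (InfinitePlace.embedding_of_isReal h) h1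
  rw [map_add, map_add, map_pow, map_one, map_zero] at h3
  nlinarith [sq_nonneg (2 * InfinitePlace.embedding_of_isReal h (algebraMap K F om) + 1)]

theorem triv_inf {F : Type u} [Field F] [NumberField F] [Algebra K F] (W : WeierstrassCurve F)
    (c : Gal F → Pts W (AlgebraicClosure F)) (h1 : c 1 = 0) (v : InfinitePlace F) :
    c ∈ trivOver W v.Completion := by
  have hc := isComplex_of_K v
  have : IsAlgClosed v.Completion :=
    algClosed_of_equiv (InfinitePlace.Completion.ringEquivComplexOfIsComplex hc)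
  exact triv_closed W v.Completion c h1

theorem coc_one {k : Type*} [Field k] (W : WeierstrassCurve k)
    (c : Gal k → Pts W (AlgebraicClosure k)) (hc : c ∈ coc W) : c 1 = 0 := by
  have h := hc.2 1 1
  rw [mul_one] at h
  have h2 : Affine.Point.map ((1 : Gal k) : AlgebraicClosure k →ₐ[k] AlgebraicClosure k) (c 1) =
      c 1 := by
    rcases c 1 with _ | ⟨x, y, h⟩ <;> rfl
  rw [h2] at h
  exact left_eq_add.1 h

variable {N N' : Type u} [Field N] [NumberField N] [Field N'] [NumberField N'] [Algebra N N']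

private theorem sh_base {F : Type*} [Field F] (W : WeierstrassCurve F) :
    Affine.baseChange W F = W.toAffine := by
  show W.map (algebraMap F F) = W
  rw [Algebra.algebraMap_self]
  exact W.map_id

theorem sh_pts (hf : Finite (E N').toAffine.Point) (W : WeierstrassCurve N)
    (C : VariableChange N') (hC : C • W.baseChange N' = E N') :
    Finite (Pts W N') ∧ Nat.card (Pts W N') = Nat.card (E N').toAffine.Point := by
  have h1 : Finite (Pts (E N') N') ∧ Nat.card (Pts (E N') N') =
      Nat.card (E N').toAffine.Point := by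
    have h2 : ∀ V : Affine N', V = (E N').toAffine → Finite V.Point ∧
        Nat.card V.Point = Nat.card (E N').toAffine.Point := by
      rintro _ rfl
      exact ⟨hf, rfl⟩
    exact h2 _ (sh_base (E N'))
  have h3 : Finite (Pts (E N') N') := h1.1
  refine ⟨Finite.of_equiv _ (tr hC N').toEquiv, ?_⟩
  rw [← Nat.card_congr (tr hC N').toEquiv]
  exact h1.2

/-- the points of `W` over `N` -/
theorem pts_down (hf : Finite (E N').toAffine.Point) (W : WeierstrassCurve N)
    (C : VariableChange N') (hC : C • W.baseChange N' = E N') :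
    Finite W.toAffine.Point ∧
      Nat.card W.toAffine.Point ∣ Nat.card (E N').toAffine.Point := by
  obtain ⟨h4, h5⟩ := sh_pts hf W C hC
  have h6 : Function.Injective (Affine.Point.map (W' := W) (Algebra.ofId N N')) :=
    Affine.Point.map_injective _
  have h7 : Finite (Pts W N) := Finite.of_injective _ h6
  have h8 : Nat.card (Pts W N) ∣ Nat.card (Pts W N') := AddSubgroup.card_dvd_of_injective _ h6
  rw [h5] at h8
  have h10 : ∀ V : Affine N, V = Affine.baseChange W N →
      Finite V.Point ∧ Nat.card V.Point ∣ Nat.card (E N').toAffine.Point := by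
    rintro _ rfl
    exact ⟨h7, h8⟩
  exact h10 _ (sh_base W).symm

/-- The `ℓ`-primary part of the Tate-Shafarevich group of `W` over `N` is zero if that of `E`
over `N'` is. -/
theorem sha_down {ℓ : ℕ} [Fact ℓ.Prime] [Algebra K N'] (hS : Subsingleton (ShaP ℓ (E N')))
    (hf : Finite (E N').toAffine.Point) (ho : Odd (Nat.card (E N').toAffine.Point))
    (x : N') (d : N) (hx : x ^ 2 = algebraMap N N' d)
    (hgen : ∀ z : N', ∃ a b : N, z = algebraMap N N' a + algebraMap N N' b * x)
    (W : WeierstrassCurve N) (C : VariableChange N') (hC : C • W.baseChange N' = E N') :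
    Subsingleton (ShaP ℓ W) := by
  obtain ⟨h4, h5⟩ := sh_pts hf W C hC
  rw [← h5] at ho
  obtain ⟨m, hm⟩ := ho
  have hodd : ∀ R : Pts W N', (2 * m + 1) • R = 0 := by
    intro R
    rw [← hm]
    exact card_nsmul_eq_zero'
  have hfin : FiniteDimensional N N' := Module.Finite.of_restrictScalars_finite ℚ N N'
  have halg : Algebra.IsAlgebraic N N' := Algebra.IsAlgebraic.of_finite N N'
  have hcl : IsAlgClosure N (AlgebraicClosure N') :=
    IsAlgClosure.ofAlgebraic N N' (AlgebraicClosure N')
  obtain ⟨j⟩ : Nonempty (AlgebraicClosure N ≃ₐ[N] AlgebraicClosure N') :=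
    ⟨IsAlgClosure.equiv N (AlgebraicClosure N) (AlgebraicClosure N')⟩
  have key : ∀ n : ℕ, ∀ y : shaCoc W ⧸ (cob W).addSubgroupOf (shaCoc W),
      ℓ ^ n • y = 0 → y = 0 := by
    intro n y hy
    obtain ⟨⟨c, hc⟩, rfl⟩ := QuotientAddGroup.mk_surjective y
    rw [← QuotientAddGroup.mk_nsmul, QuotientAddGroup.eq_zero_iff,
      AddSubgroup.mem_addSubgroupOf] at hy
    rw [QuotientAddGroup.eq_zero_iff, AddSubgroup.mem_addSubgroupOf]
    have hy' : ℓ ^ n • c ∈ cob W := hy
    have hcc : c ∈ coc W := hc.1.1
    have h1 : res hC j c ∈ coc (E N') := res_coc hC j c hcc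
    have h2 : ℓ ^ n • res hC j c ∈ cob (E N') := by
      rw [← res_nsmul]
      exact res_cob hC j _ hy'
    have h3 : ∀ w : HeightOneSpectrum (𝓞 N'),
        res hC j c ∈ trivOver (E N') (w.adicCompletion N') := by
      intro w
      obtain ⟨φ, hφ, -⟩ := exists_compMap N w
      have : CharZero ((below N w).adicCompletion N) :=
        charZero_of_injective_algebraMap (algebraMap N ((below N w).adicCompletion N)).injective
      let _ : Algebra ((below N w).adicCompletion N) (w.adicCompletion N') := φ.toAlgebra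
      let _ : Algebra N (w.adicCompletion N') :=
        ((algebraMap N' (w.adicCompletion N')).comp (algebraMap N N')).toAlgebra
      have : IsScalarTower N ((below N w).adicCompletion N) (w.adicCompletion N') :=
        IsScalarTower.of_algebraMap_eq fun x => (hφ x).symm
      have : IsScalarTower N N' (w.adicCompletion N') :=
        IsScalarTower.of_algebraMap_eq fun x => rfl
      have hcv : c ∈ trivOver W ((below N w).adicCompletion N) := by
        have h : c ∈ ⨅ v : HeightOneSpectrum (𝓞 N), trivOver W (v.adicCompletion N) := hc.1.2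
        exact AddSubgroup.mem_iInf.1 h (below N w)
      exact res_triv hC j c hcv
    have hsha : res hC j c ∈ shaCoc (E N') :=
      ⟨⟨h1, AddSubgroup.mem_iInf.2 h3⟩, AddSubgroup.mem_iInf.2 fun v =>
        triv_inf (E N') _ (coc_one (E N') _ h1) v⟩
    have h4 : res hC j c ∈ cob (E N') := by
      obtain ⟨z, hz⟩ : ∃ z : Sha (E N'), z = QuotientAddGroup.mk (⟨res hC j c, hsha⟩ :
        shaCoc (E N')) := ⟨_, rfl⟩
      have hz0 : ℓ ^ n • z = 0 := by
        rw [hz, ← QuotientAddGroup.mk_nsmul, QuotientAddGroup.eq_zero_iff,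
          AddSubgroup.mem_addSubgroupOf]
        exact h2
      have h6 : (⟨z, ⟨n, hz0⟩⟩ : ShaP ℓ (E N')) = 0 := hS.elim _ _
      have h7 : z = 0 := congrArg Subtype.val h6
      rw [hz, QuotientAddGroup.eq_zero_iff, AddSubgroup.mem_addSubgroupOf] at h7
      exact h7
    obtain ⟨P, hP⟩ := cob_res hC j c h4
    exact descend x d hx hgen W j m hodd c hcc P hP
  have h1 : ∀ x : AddCommGroup.primaryComponent (Sha W) ℓ, x = 0 := by
    rintro ⟨x, n, hn⟩
    exact Subtype.ext (key n x hn)
  exact ⟨fun x y => (h1 x).trans (h1 y).symm⟩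

theorem card_sha_one {ℓ : ℕ} [Fact ℓ.Prime] {W : WeierstrassCurve N}
    (h : Subsingleton (ShaP ℓ W)) : Nat.card (ShaP ℓ W) = 1 :=
  Nat.card_eq_one_iff_unique.2 ⟨h, ⟨(0 : AddCommGroup.primaryComponent (Sha W) ℓ)⟩⟩

end Pool.Agent.Lib.MP_1a91b9_ntT.PL
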