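import Pool.Agent.Lib.MP_1a91b9_ntT.PL.Nrm
import Pool.Agent.Lib.MP_1a91b9_ntT.PL.Sha
import Pool.Agent.Lib.MP_1a91b9_ntT.CT.Pd2
import Pool.Agent.Lib.MP_1a91b9_ntT.Rg.Fin

/-!
# The `ℓ`-part of the formula for `E` and its twist by `-3`
-/

set_option autoImplicit false

namespace Pool.Agent.Lib.MP_1a91b9_ntT.PL

open NumberField IsDedekindDomain WeierstrassCurve Pool.Agent.Lib.MP_1a91b9_ntT.S9
open Pool.Agent.Lib.MP_1a91b9_ntT.TW Pool.Agent.Lib.MP_1a91b9_ntT.CT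
open Pool.Agent.Lib.MP_1a91b9_ntT.S4 (NoCube3)
open Pool.Agent.Lib.MP_1a91b9_ntT3.S9 (ShaP FormulaQ)
open scoped Classical

universe u

section
variable {N : Type u} [Field N] [NumberField N]

theorem npos_neg_three : npos (-3 : N) = InfinitePlace.nrComplexPlaces N := by
  rw [npos, InfinitePlace.nrComplexPlaces, ← Nat.card_eq_fintype_card]
  refine Nat.card_congr (Equiv.subtypeEquivRight fun v => ?_)
  rw [← InfinitePlace.not_isReal_iff_isComplex]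
  constructor
  · intro h hr
    have h1 := h hr
    rw [map_neg, map_ofNat] at h1
    norm_num at h1
  · intro h hr
    exact absurd hr h

/-- The ratio of the products of the periods of `E` and `W` is rational. -/
theorem exists_ratio {W : WeierstrassCurve N} {D : VariableChange N} {δ : 𝓞 N} (hδ : OneM3 δ)
    (hD : D • W = tw (δ : N)) :
    ∃ r : ℚ, ∏ v : InfinitePlace N, Per.perAt (E N) v =
      (r : ℝ) * ∏ v : InfinitePlace N, Per.perAt W v := by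
  have h1 := prod_vc W D
  rw [hD] at h1
  have h2 := CT.prod_tw (δ : N) hδ.ne
  have h3 := Per.prod_perAt (F := N)
  obtain ⟨n, hn⟩ : ∃ n, n = Module.finrank ℚ N := ⟨_, rfl⟩
  obtain ⟨PW, hPW⟩ : ∃ P : ℝ, P = ∏ v : InfinitePlace N, Per.perAt W v := ⟨_, rfl⟩
  obtain ⟨PT, hPT⟩ : ∃ P : ℝ, P = ∏ v : InfinitePlace N, Per.perAt (tw (δ : N)) v := ⟨_, rfl⟩
  obtain ⟨PE, hPE⟩ : ∃ P : ℝ, P = ∏ v : InfinitePlace N, Per.perAt (E N) v := ⟨_, rfl⟩
  rw [← hPT, ← hPW] at h1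
  rw [← hPT, ← hn] at h2
  rw [← hPE, ← hn] at h3
  rw [← hPE, ← hPW]
  have h2n : (2 : ℝ) ^ n ≠ 0 := pow_ne_zero _ two_ne_zero
  rcases hδ with h | h
  · have e1 : (δ : N) = 1 := by rw [h]; rfl
    rw [e1, npos_one, map_one] at h2
    have e2 : Real.sqrt |((1 : ℚ) : ℝ)| = 1 := by norm_num
    rw [e2, mul_one] at h2
    refine ⟨2 ^ n * |Algebra.norm ℚ (D.u : N)|, ?_⟩
    have e3 : PE = 2 ^ n * PT := by
      rw [h2, h3]
      field_simp
    rw [e3, h1]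
    push_cast
    ring
  · have e1 : (δ : N) = -3 := by
      rw [h]
      change algebraMap (𝓞 N) N (-3) = -3
      rw [map_neg, map_ofNat]
    have e0 : Algebra.norm ℚ (-3 : N) = (-3) ^ n := by
      have e : (-3 : N) = algebraMap ℚ N (-3) := by rw [map_neg, map_ofNat]
      rw [e, Algebra.norm_algebraMap, hn]
    rw [e1, npos_neg_three, e0] at h2
    have e2 : Real.sqrt |(((-3) ^ n : ℚ) : ℝ)| = Real.sqrt 3 ^ n := by
      push_cast
      rw [abs_pow, abs_neg, abs_of_pos (by norm_num : (0 : ℝ) < 3)]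
      rw [Real.sqrt_eq_iff_mul_self_eq (by positivity) (by positivity), ← mul_pow,
        Real.mul_self_sqrt (by norm_num)]
    rw [e2] at h2
    have hrk := InfinitePlace.card_add_two_mul_card_eq_rank N
    have hcard := InfinitePlace.card_eq_nrRealPlaces_add_nrComplexPlaces N
    rw [hcard] at h3
    rw [← hn] at hrk
    obtain ⟨r1, hr1⟩ : ∃ r, r = InfinitePlace.nrRealPlaces N := ⟨_, rfl⟩
    obtain ⟨r2, hr2⟩ : ∃ r, r = InfinitePlace.nrComplexPlaces N := ⟨_, rfl⟩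
    rw [← hr1, ← hr2] at h3 hrk
    rw [← hr2] at h2
    have hs3 : Real.sqrt 3 ≠ 0 := by
      rw [Real.sqrt_ne_zero (by norm_num)]
      norm_num
    refine ⟨3 ^ (r1 + r2) * 2 ^ n * |Algebra.norm ℚ (D.u : N)|, ?_⟩
    have e3 : PE = 3 ^ (r1 + r2) * 2 ^ n * PT := by
      rw [h2, h3]
      have e4 : (3 : ℝ) ^ (r1 + r2) = Real.sqrt 3 ^ r1 * Real.sqrt 3 ^ n := by
        rw [← hrk, ← pow_add]
        have e5 : r1 + (r1 + 2 * r2) = 2 * (r1 + r2) := by ring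
        rw [e5, pow_mul, Real.sq_sqrt (by norm_num)]
      rw [e4, pow_add]
      field_simp
    rw [e3, h1]
    push_cast
    ring

/-- The formula. -/
theorem formula {ℓ : ℕ} [hℓ : Fact ℓ.Prime] (h5 : 5 ≤ ℓ) (hN : NoCube3 N)
    {W : WeierstrassCurve N} {D : VariableChange N} {δ : 𝓞 N} (hδ : OneM3 δ)
    (hD : D • W = tw (δ : N))
    (hLW : ∀ s : ℂ, 2 < s.re → W.LSeries s = (E N).LSeries s)
    (hval : ∃ g : ℂ → ℂ, Differentiable ℂ g ∧ (∀ s : ℂ, 2 < s.re → g s = (E N).LSeries s) ∧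
      ∀ A : ValuationSubring ℂ, Ab ℓ A → A.valuation (g 1) = A.valuation Om ^ Module.finrank ℚ N)
    (hdisc : IsCoprime (discr N) (ℓ : ℤ))
    (hc : (Nat.card W.toAffine.Point).Coprime ℓ) (hS : Subsingleton (ShaP ℓ W))
    {g : ℂ → ℂ} (hg : Differentiable ℂ g) (hgW : ∀ s : ℂ, 2 < s.re → g s = W.LSeries s) :
    FormulaQ ℓ W g ∧ Nat.card (ShaP ℓ W) = 1 ∧ (∀ v, (tam W v).Coprime ℓ) ∧
      (Nat.card W.toAffine.Point).Coprime ℓ := by
  have h3ℓ : Nat.Coprime 3 ℓ := by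
    rw [Nat.coprime_primes Nat.prime_three hℓ.out]
    omega
  have htam : ∀ v, (tam W v).Coprime ℓ := tam_coprime hN hδ hD hℓ.out h5
  have hcard := card_sha_one hS
  refine ⟨?_, hcard, htam, hc⟩
  obtain ⟨g₁, hg₁, hgs₁, hv⟩ := hval
  obtain ⟨g₂, q, hg₂, hgs₂, hq⟩ := Rg.rat_N N hN
  have e1 : g = g₁ := S4.entire_eq hg hg₁ fun s hs => by rw [hgW s hs, hLW s hs, hgs₁ s hs]
  have e2 : g = g₂ := S4.entire_eq hg hg₂ fun s hs => by rw [hgW s hs, hLW s hs, hgs₂ s hs]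
  rw [← e1] at hv
  rw [← e2] at hq
  obtain ⟨r, hr⟩ := exists_ratio hδ hD
  obtain ⟨hP0, hPv⟩ := period_tw hδ hD h3ℓ
  obtain ⟨φ, hφ⟩ := MP_1a91b9_ntT3.S9.rat_normFactor W
  obtain ⟨T, hT⟩ : ∃ T : ℕ, T = ∏ᶠ v : HeightOneSpectrum (𝓞 N), tam W v := ⟨_, rfl⟩
  have hTc : T.Coprime ℓ := by
    rw [hT]
    exact finprod_induction (p := fun n : ℕ => n.Coprime ℓ) (Nat.coprime_one_left ℓ)
      (fun _ _ => Nat.Coprime.mul_left) htam
  obtain ⟨P, hP⟩ : ∃ P : ℝ, P = ∏ v : InfinitePlace N, Per.perAt W v := ⟨_, rfl⟩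
  obtain ⟨C, hC⟩ : ∃ C : ℕ, C = Nat.card W.toAffine.Point := ⟨_, rfl⟩
  have hper : period W = (φ : ℝ) * P := by rw [hφ, hP]; rfl
  rw [← hC] at hc
  have hT0 : (T : ℝ) ≠ 0 := by
    rintro h0
    have h1 : T = 0 := by exact_mod_cast h0
    rw [h1, Nat.coprime_zero_left] at hTc
    omega
  have hC0 : (C : ℝ) ≠ 0 := by
    rintro h0
    have h1 : C = 0 := by exact_mod_cast h0
    rw [h1, Nat.coprime_zero_left] at hc
    omega
  have hφ0 : (φ : ℝ) ≠ 0 := by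
    intro h0
    rw [hper, h0, zero_mul] at hP0
    exact hP0 rfl
  have hPP : (P : ℝ) ≠ 0 := by
    intro h0
    rw [hper, h0, mul_zero] at hP0
    exact hP0 rfl
  rw [hr, ← hP] at hq
  -- the rational number
  have hform : g 1 * (√|(discr N : ℝ)| : ℝ) / (period W : ℝ) =
      (((q * r / φ * (C : ℚ) ^ 2 / (T : ℚ) : ℚ) : ℝ) *
        ((Nat.card (ShaP ℓ W) : ℝ) * (T : ℝ) / (C : ℝ) ^ 2) : ℝ) := by
    rw [hq, hper, hcard]
    push_cast
    have a1 : (T : ℂ) ≠ 0 := by exact_mod_cast hT0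
    have a2 : (C : ℂ) ≠ 0 := by exact_mod_cast hC0
    have a3 : (φ : ℂ) ≠ 0 := by exact_mod_cast hφ0
    have a4 : (P : ℂ) ≠ 0 := by exact_mod_cast hPP
    field_simp
  have hOm : ∀ A : ValuationSubring ℂ, A.valuation Om ≠ 0 := fun A => (map_ne_zero _).2 Om_ne_zero
  have hval : ∀ A : ValuationSubring ℂ, Ab ℓ A →
      A.valuation (((q * r / φ * (C : ℚ) ^ 2 / (T : ℚ) : ℚ) : ℝ) : ℂ) = 1 := by
    intro A hA
    have h1 := congrArg A.valuation hform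
    rw [map_div₀, map_mul, hv A hA, hA.sqrt_int hdisc, mul_one, hPv A hA,
      div_self (pow_ne_zero _ (hOm A)), Complex.ofReal_mul, map_mul, hcard] at h1
    have h2 : A.valuation ((((1 : ℕ) : ℝ) * (T : ℝ) / (C : ℝ) ^ 2 : ℝ) : ℂ) = 1 := by
      push_cast
      rw [one_mul, map_div₀, map_pow, hA.nat hTc, hA.nat hc, one_pow, div_one]
    rw [h2, mul_one] at h1
    exact h1.symm
  obtain ⟨A, hA⟩ : ∃ A : ValuationSubring ℂ, Ab ℓ A := Ell.d3_exists hℓ.out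
  have hx0 : ((q * r / φ * (C : ℚ) ^ 2 / (T : ℚ) : ℚ) : ℝ) ≠ 0 := by
    intro h0
    have h1 := hval A hA
    rw [h0, Complex.ofReal_zero, map_zero] at h1
    exact zero_ne_one h1
  obtain ⟨-, hx1, hx2⟩ := MP_1a91b9_ntT3.S9.unitAt_of_val hℓ.out hx0 hval
  have hq0 : (q * r / φ * (C : ℚ) ^ 2 / (T : ℚ) : ℚ) ≠ 0 := by
    intro h0
    exact hx0 (by rw [h0, Rat.cast_zero])
  refine ⟨_, MP_1a91b9_ntT3.S9.num_coprime hq0 hx2, MP_1a91b9_ntT3.S9.den_coprime hx1, ?_⟩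
  rw [← hT, ← hC]
  exact hform

end

end Pool.Agent.Lib.MP_1a91b9_ntT.PL
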