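import Pool.Agent.Lib.MP_1a91b9_ntT.DX.Cj
import Pool.Agent.Lib.MP_1a91b9_ntT.DW.Alg

/-!
# The order of `E(F)`: odd and prime to `ℓ`
-/

set_option autoImplicit false

namespace Pool.Agent.Lib.MP_1a91b9_ntT.PL

open NumberField IsDedekindDomain WeierstrassCurve DB DX
open scoped Classical

universe u

theorem rat_cube_ne_two (q : ℚ) : q ^ 3 ≠ 2 := by
  intro h
  have h1 : IsIntegral ℤ q := by
    refine ⟨Polynomial.X ^ 3 - Polynomial.C 2, Polynomial.monic_X_pow_sub_C 2 (by norm_num), ?_⟩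
    simp [h]
  obtain ⟨n, rfl⟩ := IsIntegrallyClosed.isIntegral_iff.1 h1
  have h' : ((n : ℚ)) ^ 3 = 2 := h
  have h2 : n ^ 3 = 2 := by exact_mod_cast h'
  have h3 : n < 2 := by
    by_contra hc
    rw [not_lt] at hc
    have : (2 : ℤ) ^ 3 ≤ n ^ 3 := pow_le_pow_left₀ (by norm_num) hc 3
    omega
  have h4 : 0 < n := by
    by_contra hc
    rw [not_lt] at hc
    have : n ^ 3 ≤ 0 := by
      have := pow_nonneg (neg_nonneg.2 hc) 3
      have e : (-n) ^ 3 = -(n ^ 3) := by ring
      omega
    omega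
  have h5 : n = 1 := by omega
  rw [h5] at h2
  norm_num at h2

/-- `2` is not a cube in an extension of `K` of degree prime to three. -/
theorem no_cube_two {F : Type*} [Field F] [NumberField F] [Algebra K F]
    (h3 : ¬ 3 ∣ Module.finrank K F) (x : F) : x ^ 3 ≠ 2 := by
  intro hx
  obtain ⟨y, hy⟩ := DW.exists_cube3 (N := K) (L := F) h3 2 x (by rw [hx, map_ofNat])
  obtain ⟨z, hz⟩ := DW.exists_cube3 (N := ℚ) (L := K) (by rw [S4.u4_finrank]; norm_num) 2 y
    (by rw [hy, map_ofNat])
  exact rat_cube_ne_two z hz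

/-- the order of `E(F)` is odd -/
theorem odd_card {F : Type*} [Field F] [CharZero F] (h2 : ∀ x : F, x ^ 3 ≠ 2)
    [Finite (E F).toAffine.Point] : Odd (Nat.card (E F).toAffine.Point) := by
  by_contra hodd
  rw [Nat.not_odd_iff_even] at hodd
  have : Fact (Nat.Prime 2) := ⟨Nat.prime_two⟩
  obtain ⟨P, hP⟩ := exists_prime_addOrderOf_dvd_card' (G := (E F).toAffine.Point) 2 hodd.two_dvd
  have h0 : P ≠ 0 := by
    rintro rfl
    rw [addOrderOf_zero] at hP
    norm_num at hP
  have h1 : P = -P := by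
    have h3 := addOrderOf_nsmul_eq_zero P
    rw [hP, two_nsmul] at h3
    exact eq_neg_of_add_eq_zero_left h3
  rcases P with _ | ⟨x, y, h⟩
  · exact h0 rfl
  · rw [Affine.Point.neg_some, Affine.Point.some.injEq] at h1
    have h3 := h1.2
    simp only [Affine.negY, E] at h3
    have h4 := h.1
    rw [Affine.equation_iff] at h4
    simp only [E] at h4
    apply h2 (-2 * x)
    have h5 : 2 * y = -1 := by linear_combination h3
    linear_combination 8 * h4 - (4 * y + 2) * h5

theorem base_eq (F : Type*) [Field F] [Algebra K F] :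
    Affine.baseChange (E K) F = (E F).toAffine := by
  have h : (E K).map (algebraMap K F) = E F := by
    ext <;> simp [E]
  exact h

/-- comparison of the two groups of points -/
theorem pt_card (F : Type*) [Field F] [Algebra K F] (hf : Finite (Pt F)) :
    Finite (E F).toAffine.Point ∧ Nat.card (E F).toAffine.Point = Nat.card (Pt F) := by
  have h : ∀ V : Affine F, V = Affine.baseChange (E K) F →
      Finite V.Point ∧ Nat.card V.Point = Nat.card (Pt F) := by
    rintro _ rfl
    exact ⟨hf, rfl⟩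
  exact h _ (base_eq F).symm

section
variable {ϖ : 𝓞 K} {ℓ q : ℕ} (h : PD ϖ ℓ q) {F : Type u} [Field F] [NumberField F] [Algebra K F]
  [DecidableEq F]
include h

/-- a finite group on which `ϖ` and its conjugate are surjective has an order prime to `ℓ` -/
theorem coprime_card (hf : Finite (Pt F)) (h1 : ∀ P : Pt F, ∃ P' : Pt F, sm F (cj ϖ) P' = P)
    (h2 : ∀ P : Pt F, ∃ P' : Pt F, sm F ϖ P' = P) : (Nat.card (Pt F)).Coprime ℓ := by
  rw [Nat.coprime_comm, Nat.Prime.coprime_iff_not_dvd h.hl]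
  intro hd
  have : Fact ℓ.Prime := ⟨h.hl⟩
  obtain ⟨R, hR⟩ := exists_prime_addOrderOf_dvd_card' (G := Pt F) ℓ hd
  have hR0 : R ≠ 0 := by
    rintro rfl
    rw [addOrderOf_zero] at hR
    exact h.hl.one_lt.ne hR
  have hℓ : ℓ • R = 0 := by
    rw [← hR]
    exact addOrderOf_nsmul_eq_zero R
  have hq : q • R = 0 := by
    rcases h.alt with e | e
    · rw [e]; exact hℓ
    · rw [e, pow_two, mul_nsmul, hℓ, smul_zero]
  have i1 : Function.Injective (sm F (cj ϖ)) := Finite.injective_iff_surjective.2 h1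
  have i2 : Function.Injective (sm F ϖ) := Finite.injective_iff_surjective.2 h2
  apply hR0
  apply i1
  apply i2
  rw [map_zero, map_zero]
  have e1 : sm F ϖ (sm F (cj ϖ) R) = sm F (ϖ * cj ϖ) R := by
    rw [map_mul]
    rfl
  rw [e1, mul_cj, h.norm, sm_nat, hq]

end

end Pool.Agent.Lib.MP_1a91b9_ntT.PL
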