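import Pool.Agent.Lib.MP_1a91b9_ntT.PL.Form
import Pool.Agent.Lib.MP_1a91b9_ntT.PL.Odd
import Pool.Agent.Lib.MP_1a91b9_ntT.PL.Disc
import Pool.Agent.Lib.MP_1a91b9_ntT.DW.Main

/-!
# The `ℓ`-part of the conjecture of Birch and Swinnerton-Dyer: the fields `N ⊆ F`

`F` contains `K`, and `N = F` or `F = N(√-3)`.
-/

set_option autoImplicit false

namespace Pool.Agent.Lib.MP_1a91b9_ntT.PL

open NumberField IsDedekindDomain WeierstrassCurve Module Pool.Agent.Lib.MP_1a91b9_ntT.S9
open Pool.Agent.Lib.MP_1a91b9_ntT.TW Pool.Agent.Lib.MP_1a91b9_ntG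
open Pool.Agent.Lib.MP_1a91b9_ntT.S4 (NoCube3)
open Pool.Agent.Lib.MP_1a91b9_ntT.S5 (below exists_above val_below mem_below)
open Pool.Agent.Lib.MP_1a91b9_ntT3.S9 (ShaP FormulaQ)
open scoped Classical

universe u

/-- What is needed about the field `F` over `K`. -/
structure GoodF (ℓ : ℕ) [Fact ℓ.Prime] (F : Type u) [Field F] [NumberField F] [Algebra K F] :
    Prop where
  unr : DS.UnrL ℓ F
  unit : UnitProp 3 ℓ Om F
  noc : NoCube3 F
  two : ∀ x : F, x ^ 3 ≠ 2
  fin : Finite (E F).toAffine.Point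
  cop : (Nat.card (E F).toAffine.Point).Coprime ℓ
  sha : Subsingleton (ShaP ℓ (E F))

/-- The `ℓ`-part of the conjecture, all the terms of which are trivial at `ℓ`. -/
def Concl (ℓ : ℕ) [Fact ℓ.Prime] {N : Type u} [Field N] [NumberField N] (W : WeierstrassCurve N) :
    Prop :=
  (∀ g : ℂ → ℂ, Differentiable ℂ g → (∀ s : ℂ, 2 < s.re → g s = W.LSeries s) → FormulaQ ℓ W g) ∧
    Nat.card (ShaP ℓ W) = 1 ∧ (∀ v : HeightOneSpectrum (𝓞 N), (tam W v).Coprime ℓ) ∧
    Finite W.toAffine.Point ∧ (Nat.card W.toAffine.Point).Coprime ℓ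

/-- `NoCube3` for subfields. -/
theorem noCube3_down {N F : Type*} [Field N] [NumberField N] [Field F] [NumberField F]
    [Algebra N F] (h : NoCube3 F) : NoCube3 N := by
  intro v hv γ hγ
  obtain ⟨w, rfl⟩ := exists_above N F v
  have h1 := val_below N w (3 : N)
  rw [map_ofNat] at h1
  have h2 : (3 : 𝓞 F) ∈ w.asIdeal := by
    rw [mem_below, map_ofNat] at hv
    exact hv
  refine h w h2 (γ ^ S5.ram N w) ?_
  rw [← pow_mul, mul_comm, pow_mul, hγ, h1]

/-- the two coordinates of the elements of a quadratic extension -/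
theorem exists_coord {N F : Type*} [Field N] [Field F] [Algebra N F]
    (hfr : finrank N F = 2) (x : F) (hx : ∀ a : N, algebraMap N F a ≠ x) (z : F) :
    ∃ a b : N, z = algebraMap N F a + algebraMap N F b * x := by
  have hli : LinearIndependent N ![(1 : F), x] := by
    rw [LinearIndependent.pair_iff]
    intro s t hst
    have ht : t = 0 := by
      by_contra ht
      apply hx (-s / t)
      rw [map_div₀, map_neg]
      have ht' : algebraMap N F t ≠ 0 := (map_ne_zero _).2 ht
      rw [div_eq_iff ht']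
      rw [Algebra.smul_def, Algebra.smul_def, mul_one] at hst
      linear_combination -hst
    refine ⟨?_, ht⟩
    rw [ht, zero_smul, add_zero, Algebra.smul_def, mul_one] at hst
    exact (map_eq_zero _).1 hst
  have hspan := hli.span_eq_top_of_card_eq_finrank (by simp [hfr])
  have hz : z ∈ Submodule.span N (Set.range ![(1 : F), x]) := by rw [hspan]; trivial
  rw [Matrix.range_cons, Matrix.range_cons, Matrix.range_empty, Set.union_empty,
    Set.singleton_union, Submodule.mem_span_pair] at hz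
  obtain ⟨a, b, hab⟩ := hz
  refine ⟨a, b, ?_⟩
  rw [← hab, Algebra.smul_def, Algebra.smul_def, mul_one]

private theorem bc_self {F : Type*} [Field F] (W : WeierstrassCurve F) :
    W.baseChange F = W := by
  show W.map (algebraMap F F) = W
  rw [Algebra.algebraMap_self]
  exact W.map_id

private theorem E_map_pl {F G : Type*} [Field F] [Field G] (f : F →+* G) :
    (E F).map f = E G := by
  ext <;> simp [E]

section
variable {ℓ : ℕ} [hℓ : Fact ℓ.Prime] (h5 : 5 ≤ ℓ)
include h5

/-- The conclusion over `F`. -/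
theorem concl_F {F : Type u} [Field F] [NumberField F] [Algebra K F] (h : GoodF ℓ F)
    (W : WeierstrassCurve F) (D : VariableChange F) (hD : D • W = E F) : Concl ℓ W := by
  have hf := h.fin
  have hodd := odd_card h.two
  have hC : D • W.baseChange F = E F := by rw [bc_self]; exact hD
  obtain ⟨hfW, hdvd⟩ := pts_down (N := F) (N' := F) hf W D hC
  have hcW : (Nat.card W.toAffine.Point).Coprime ℓ := Nat.Coprime.coprime_dvd_left hdvd h.cop
  have hS : Subsingleton (ShaP ℓ W) :=
    sha_down (N := F) (N' := F) h.sha hf hodd 1 1 (by rw [one_pow, map_one])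
      (fun z => ⟨z, 0, by simp⟩) W D hC
  obtain ⟨D₁, hD₁⟩ := exists_iso_sq (1 : F) one_ne_zero
  rw [one_pow] at hD₁
  have hδ : OneM3 (1 : 𝓞 F) := Or.inl rfl
  have hDW : (D₁⁻¹ * D) • W = tw (((1 : 𝓞 F)) : F) := by
    have e : ((1 : 𝓞 F) : F) = 1 := rfl
    rw [mul_smul, hD, e, ← hD₁, inv_smul_smul]
  have hLW : ∀ s : ℂ, 2 < s.re → W.LSeries s = (E F).LSeries s := fun s _ => by
    rw [DW.LSeries_iso h.noc W D hD]
  have hval := lvalK h.unit h.noc
  have hdisc := coprime_discr hℓ.out F F h.unr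
  have htam : ∀ v, (tam W v).Coprime ℓ := tam_coprime h.noc hδ hDW hℓ.out h5
  refine ⟨fun g hg hgW => ?_, card_sha_one hS, htam, hfW, hcW⟩
  exact (formula h5 h.noc hδ hDW hLW hval hdisc hcW hS hg hgW).1

/-- The conclusion over `N`, `F = N(√-3)`. -/
theorem concl_N {N F : Type u} [Field N] [NumberField N] [Field F] [NumberField F]
    [Algebra N F] [Algebra K F] (hL : finrank N F = 2)
    (hn : ∀ x : N, algebraMap N F x ≠ algebraMap K F om) (h : GoodF ℓ F) (W : WeierstrassCurve N)
    (hW : (∃ D : VariableChange N, D • W = E N) ∨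
      ∃ D : VariableChange N, D • W = tw (-3 : N)) : Concl ℓ W := by
  have hf := h.fin
  have hodd := odd_card h.two
  have hN : NoCube3 N := noCube3_down h.noc
  have hz : (2 * algebraMap K F om + 1) ^ 2 = -3 := om_of_sqrt _ rfl
  have hz' : ∀ a : N, algebraMap N F a ≠ 2 * algebraMap K F om + 1 := by
    intro a ha
    apply hn ((a - 1) / 2)
    rw [map_div₀, map_sub, map_one, map_ofNat, ha]
    ring
  have hgen := exists_coord hL _ hz'
  have hval := lvalN hL hn hN h.unit
  have hdisc := coprime_discr hℓ.out N F h.unr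
  rcases hW with ⟨D, hD⟩ | ⟨D, hD⟩
  · have hC : (D.map (algebraMap N F)) • W.baseChange F = E F := by
      rw [← E_map_pl (algebraMap N F), ← hD]
      exact (WeierstrassCurve.map_variableChange _ _ _)
    obtain ⟨hfW, hdvd⟩ := pts_down (N := N) (N' := F) hf W _ hC
    have hcW : (Nat.card W.toAffine.Point).Coprime ℓ := Nat.Coprime.coprime_dvd_left hdvd h.cop
    have hS : Subsingleton (ShaP ℓ W) :=
      sha_down (N := N) (N' := F) h.sha hf hodd (2 * algebraMap K F om + 1) (-3)
        (by rw [hz, map_neg, map_ofNat]) hgen W _ hC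
    obtain ⟨D₁, hD₁⟩ := exists_iso_sq (1 : N) one_ne_zero
    rw [one_pow] at hD₁
    have hδ : OneM3 (1 : 𝓞 N) := Or.inl rfl
    have hDW : (D₁⁻¹ * D) • W = tw (((1 : 𝓞 N)) : N) := by
      have e : ((1 : 𝓞 N) : N) = 1 := rfl
      rw [mul_smul, hD, e, ← hD₁, inv_smul_smul]
    have hLW : ∀ s : ℂ, 2 < s.re → W.LSeries s = (E N).LSeries s := fun s _ => by
      rw [DW.LSeries_iso hN W D hD]
    have htam : ∀ v, (tam W v).Coprime ℓ := tam_coprime hN hδ hDW hℓ.out h5
    refine ⟨fun g hg hgW => ?_, card_sha_one hS, htam, hfW, hcW⟩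
    exact (formula h5 hN hδ hDW hLW hval hdisc hcW hS hg hgW).1
  · have hz0 : (2 * algebraMap K F om + 1 : F) ≠ 0 := by
      intro h0
      rw [h0, zero_pow two_ne_zero] at hz
      norm_num at hz
    obtain ⟨D₂, hD₂⟩ := exists_iso_sq (2 * algebraMap K F om + 1 : F) hz0
    rw [hz] at hD₂
    have hC : (D₂ * D.map (algebraMap N F)) • W.baseChange F = E F := by
      have e1 : (D.map (algebraMap N F)) • W.baseChange F = (tw (-3 : N)).map (algebraMap N F) := by
        rw [← hD]
        exact (WeierstrassCurve.map_variableChange _ _ _)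
      rw [mul_smul, e1, tw_map, map_neg, map_ofNat, hD₂]
    obtain ⟨hfW, hdvd⟩ := pts_down (N := N) (N' := F) hf W _ hC
    have hcW : (Nat.card W.toAffine.Point).Coprime ℓ := Nat.Coprime.coprime_dvd_left hdvd h.cop
    have hS : Subsingleton (ShaP ℓ W) :=
      sha_down (N := N) (N' := F) h.sha hf hodd (2 * algebraMap K F om + 1) (-3)
        (by rw [hz, map_neg, map_ofNat]) hgen W _ hC
    have hδ : OneM3 (-3 : 𝓞 N) := Or.inr rfl
    have hDW : D • W = tw (((-3 : 𝓞 N)) : N) := by
      have e : ((-3 : 𝓞 N) : N) = -3 := by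
        change algebraMap (𝓞 N) N (-3) = -3
        rw [map_neg, map_ofNat]
      rw [hD, e]
    have hLW : ∀ s : ℂ, 2 < s.re → W.LSeries s = (E N).LSeries s := fun s hs => by
      rw [DW.half_tw3 hL hn hN W D hD s (by linarith), S4.LSeries_B hL hn hN s hs]
    have htam : ∀ v, (tam W v).Coprime ℓ := tam_coprime hN hδ hDW hℓ.out h5
    refine ⟨fun g hg hgW => ?_, card_sha_one hS, htam, hfW, hcW⟩
    exact (formula h5 hN hδ hDW hLW hval hdisc hcW hS hg hgW).1

end

/-- What is needed about the field `N`. -/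
def DatP (ℓ : ℕ) [Fact ℓ.Prime] (N : Type u) [Field N] [NumberField N] : Prop :=
  (∃ _ : Algebra K N, GoodF ℓ N) ∨
  ∃ (F : Type u) (_ : Field F) (_ : NumberField F) (_ : Algebra N F) (_ : Algebra K F),
    finrank N F = 2 ∧ (∀ x : N, algebraMap N F x ≠ algebraMap K F om) ∧ GoodF ℓ F

/-- The `ℓ`-part for the curves over `N` which become isomorphic to `E` inside an extension `M` of
`K` of degree prime to six. -/
theorem prime_part {ℓ : ℕ} [hℓ : Fact ℓ.Prime] (h5 : 5 ≤ ℓ) (N L M : Type u) [Field N]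
    [NumberField N] [Field L] [NumberField L]
    [Field M] [NumberField M] [Algebra N L] [Algebra L M] [Algebra K M]
    (h2 : ¬ 2 ∣ finrank K M) (h3 : ¬ 3 ∣ finrank K M)
    (hdat : DatP ℓ N) (W : WeierstrassCurve N) (C : VariableChange L)
    (hC : C • (W.baseChange L) = E L) : Concl ℓ W := by
  have hW := DW.twist_class N L M h2 h3 W C hC
  rcases hdat with ⟨_, hg⟩ | ⟨F, _, _, _, _, hL, hn, hg⟩
  · rcases hW with ⟨D, hD⟩ | ⟨D, hD⟩
    · exact concl_F h5 hg W D hD
    · have hz : (2 * algebraMap K N om + 1) ^ 2 = -3 := om_of_sqrt _ rfl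
      have hz0 : (2 * algebraMap K N om + 1 : N) ≠ 0 := by
        intro h0
        rw [h0, zero_pow two_ne_zero] at hz
        norm_num at hz
      obtain ⟨D', hD'⟩ := exists_iso_sq (2 * algebraMap K N om + 1 : N) hz0
      rw [hz] at hD'
      exact concl_F h5 hg W (D' * D) (by rw [mul_smul, hD, hD'])
  · exact concl_N h5 hL hn hg W hW

end Pool.Agent.Lib.MP_1a91b9_ntT.PL
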