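import Pool.Agent.Lib.MP_1a91b9_nt.VcPoint
import Pool.Agent.Lib.MP_1a91b9_ntT.CT.Lf
import Pool.Agent.Lib.MP_1a91b9_ntT.CT.La
import Pool.Agent.Lib.MP_1a91b9_ntT.PL.TamA

/-!
# The Tamagawa numbers of the twists of `E` at the places above `3`

If the value of `3` is not a cube, the Tamagawa number of `y² = x³ + 16 d³` is `1`, `2` or `3`.
-/

set_option autoImplicit false

namespace Pool.Agent.Lib.MP_1a91b9_ntT.PL

open NumberField IsDedekindDomain WeierstrassCurve WithZero Pool.Agent.Lib.MP_1a91b9_ntT.S9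
open Pool.Agent.Lib.MP_1a91b9_ntT.TW Pool.Agent.Lib.MP_1a91b9_ntT.CT
open scoped Classical

variable {N : Type*} [Field N] [NumberField N]

/-- the far points of `y² = x³ + 16 d³` -/
def Far {k : Type*} [Field k] (v : Valuation k ℤᵐ⁰) (d : k) (P : (tw d).toAffine.Point) : Prop :=
  P = 0 ∨ ∃ (x y : k) (h : (tw d).toAffine.Nonsingular x y), P = Affine.Point.some x y h ∧
    v 3 * v d ^ 3 < v (x + d) ^ 3

theorem tw_eq {k : Type*} [Field k] {d x y : k} (h : (tw d).toAffine.Nonsingular x y) :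
    y ^ 2 = x ^ 3 + 16 * d ^ 3 := by
  have h1 := h.1
  rw [Affine.equation_iff] at h1
  simp only [tw] at h1
  linear_combination h1

/-- of two points which are not far, the difference or the sum is far -/
theorem far_or {k : Type*} [Field k] (v : Valuation k ℤᵐ⁰) (h3 : v 3 < 1)
    (hn : ∀ γ : ℤᵐ⁰, γ ^ 3 ≠ v 3) {d : k} (hd : d ≠ 0) (P Q : (tw d).toAffine.Point)
    (hP : ¬ Far v d P) (hQ : ¬ Far v d Q) : Far v d (P - Q) ∨ Far v d (P + Q) := by
  rcases P with _ | ⟨x₁, y₁, h₁⟩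
  · exact absurd (Or.inl rfl) hP
  rcases Q with _ | ⟨x₂, y₂, h₂⟩
  · exact absurd (Or.inl rfl) hQ
  have n1 : v (x₁ + d) ^ 3 < v 3 * v d ^ 3 := by
    refine lt_of_le_of_ne (not_lt.1 fun h => hP (Or.inr ⟨x₁, y₁, h₁, rfl, h⟩)) ?_
    exact not_cube v h3 hn hd _
  have n2 : v (x₂ + d) ^ 3 < v 3 * v d ^ 3 := by
    refine lt_of_le_of_ne (not_lt.1 fun h => hQ (Or.inr ⟨x₂, y₂, h₂, rfl, h⟩)) ?_
    exact not_cube v h3 hn hd _
  have e1 := tw_eq h₁
  have e2 := tw_eq h₂
  have h30 : 0 < v 3 := zero_lt_iff.2 (three_ne v h3 hn)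
  have hd0 : 0 < v d := zero_lt_iff.2 ((Valuation.ne_zero_iff _).2 hd)
  have hθ : 0 < v 3 * v d ^ 3 := mul_pos h30 (pow_pos hd0 3)
  have ey := val_y_sq v h3 hn hd e1 n1
  have hy0 : 0 < v y₁ := by
    rw [zero_lt_iff]
    intro h0
    rw [h0, zero_pow (by norm_num)] at ey
    exact hθ.ne ey
  -- the case `v (y₁ - y₂) < v y₁` for general points
  have key : ∀ (y₂' : k) (h₂' : (tw d).toAffine.Nonsingular x₂ y₂'), v (y₁ - y₂') < v y₁ →
      Far v d (Affine.Point.some x₁ y₁ h₁ - Affine.Point.some x₂ y₂' h₂') := by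
    intro y₂' h₂' hy
    have e2' := tw_eq h₂'
    by_cases hx : x₁ = x₂
    · left
      have h5 : (y₁ - y₂') * (y₁ + y₂') = 0 := by
        have : y₁ ^ 2 = y₂' ^ 2 := by rw [e1, e2', hx]
        linear_combination this
      rcases mul_eq_zero.1 h5 with h6 | h6
      · have h7 : y₁ = y₂' := sub_eq_zero.1 h6
        subst hx
        subst h7
        exact sub_self _
      · exfalso
        have h7 : y₁ - y₂' = 2 * y₁ := by linear_combination -h6
        rw [h7, map_mul, val_two v h3, one_mul] at hy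
        exact lt_irrefl _ hy
    · right
      have hneg : (tw d).toAffine.negY x₂ y₂' = -y₂' := by
        simp [Affine.negY, tw]
      have hneg2 : (tw d).toAffine.negY x₂ (-y₂') = y₂' := by
        simp [Affine.negY, tw]
      have hns : (tw d).toAffine.Nonsingular x₂ (-y₂') := by
        rw [← hneg]
        exact (Affine.nonsingular_neg ..).2 h₂'
      have hsub : Affine.Point.some x₁ y₁ h₁ - Affine.Point.some x₂ y₂' h₂' =
          Affine.Point.some x₁ y₁ h₁ + Affine.Point.some x₂ (-y₂') hns := by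
        rw [sub_eq_add_neg, Affine.Point.neg_some]
        congr 1
        rw [Affine.Point.some.injEq]
        exact ⟨rfl, hneg⟩
      have hxy : ¬ (x₁ = x₂ ∧ y₁ = (tw d).toAffine.negY x₂ (-y₂')) := fun h => hx h.1
      rw [hsub, Affine.Point.add_some hxy]
      refine ⟨_, _, _, rfl, ?_⟩
      have hsl : (tw d).toAffine.slope x₁ x₂ y₁ (-y₂') = (y₁ + y₂') / (x₁ - x₂) := by
        rw [Affine.slope_of_X_ne hx, sub_neg_eq_add]
      have hX : (tw d).toAffine.addX x₁ x₂ ((tw d).toAffine.slope x₁ x₂ y₁ (-y₂')) + d =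
          ((y₁ + y₂') / (x₁ - x₂)) ^ 2 - x₁ - x₂ + d := by
        rw [hsl]
        simp only [Affine.addX, tw]
        ring
      rw [hX]
      exact far_of_near v h3 hn hd e1 n1 n2 hy hx
  rcases near_or v h3 hn hd e1 e2 n1 n2 with h | h
  · exact Or.inl (key y₂ h₂ h)
  · right
    have hneg : (tw d).toAffine.negY x₂ y₂ = -y₂ := by
      simp [Affine.negY, tw]
    have hns : (tw d).toAffine.Nonsingular x₂ (-y₂) := by
      rw [← hneg]
      exact (Affine.nonsingular_neg ..).2 h₂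
    have h7 := key (-y₂) hns (by rwa [sub_neg_eq_add])
    have e : Affine.Point.some x₁ y₁ h₁ - Affine.Point.some x₂ (-y₂) hns =
        Affine.Point.some x₁ y₁ h₁ + Affine.Point.some x₂ y₂ h₂ := by
      rw [sub_eq_add_neg, Affine.Point.neg_some]
      congr 1
      rw [Affine.Point.some.injEq]
      refine ⟨rfl, ?_⟩
      simp [Affine.negY, tw]
    rw [← e]
    exact h7

/-- parity: a square between two sixth powers which is a cube -/
theorem parity {θ ρ μ η : ℤᵐ⁰} (h1 : μ ^ 6 * exp (-6 : ℤ) < θ) (h2 : θ < ρ ^ 3)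
    (h3 : ρ ^ 3 < μ ^ 6) (h4 : η ^ 2 = ρ ^ 3) : False := by
  have hμ : μ ≠ 0 := by
    rintro rfl
    rw [zero_pow (by norm_num)] at h3
    exact not_lt_zero h3
  have hρ : ρ ≠ 0 := by
    rintro rfl
    rw [zero_pow (by norm_num)] at h2
    exact not_lt_zero h2
  have hη : η ≠ 0 := by
    rintro rfl
    rw [zero_pow (by norm_num)] at h4
    exact pow_ne_zero 3 hρ h4.symm
  have e1 : μ = exp (log μ) := (exp_log hμ).symm
  have e2 : ρ = exp (log ρ) := (exp_log hρ).symm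
  have e3 : η = exp (log η) := (exp_log hη).symm
  have h5 : μ ^ 6 * exp (-6 : ℤ) < ρ ^ 3 := h1.trans h2
  rw [e1, e2, ← exp_nsmul, ← exp_nsmul, ← exp_add, exp_lt_exp] at h5
  rw [e1, e2, ← exp_nsmul, ← exp_nsmul, exp_lt_exp] at h3
  rw [e3, e2, ← exp_nsmul, ← exp_nsmul, exp_inj] at h4
  simp only [nsmul_eq_mul] at h3 h4 h5
  push_cast at h3 h4 h5
  omega

section
variable (v : HeightOneSpectrum (𝓞 N)) (h3 : Valued.v (3 : v.adicCompletion N) < (1 : ℤᵐ⁰))
  (hn : ∀ γ : ℤᵐ⁰, γ ^ 3 ≠ Valued.v (3 : v.adicCompletion N))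
include h3 hn

theorem tb_int {d : v.adicCompletion N} (hd : d ≠ 0) (C : VariableChange (v.adicCompletion N))
    (I : WeierstrassCurve (v.adicCompletionIntegers N))
    (hI : C • tw d = I.baseChange (v.adicCompletion N)) :
    Valued.v (3 : v.adicCompletion N) * Valued.v d ^ 3 <
      Valued.v (C.u : v.adicCompletion N) ^ 6 ∧
      Valued.v (C.r + d) ≤ Valued.v (C.u : v.adicCompletion N) ^ 2 := by
  have hu0 : Valued.v (C.u : v.adicCompletion N) ≠ (0 : ℤᵐ⁰) :=
    (Valuation.ne_zero_iff _).2 C.u.ne_zero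
  have h6 : Valued.v (C • tw d).b₆ ≤ (1 : ℤᵐ⁰) := by
    rw [hI, WeierstrassCurve.baseChange, WeierstrassCurve.map_b₆]
    exact I.b₆.2
  have e6 : (C • tw d).b₆ = ((C.u⁻¹ : (v.adicCompletion N)ˣ) : v.adicCompletion N) ^ 6 *
      (4 * (C.r ^ 3 + 16 * d ^ 3)) := by
    rw [variableChange_b₆]
    simp only [tw, WeierstrassCurve.b₂, WeierstrassCurve.b₄, WeierstrassCurve.b₆]
    ring
  have hinv : Valued.v ((C.u⁻¹ : (v.adicCompletion N)ˣ) : v.adicCompletion N) =
      (Valued.v (C.u : v.adicCompletion N) : ℤᵐ⁰)⁻¹ := by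
    rw [Units.val_inv_eq_inv_val, map_inv₀]
  have h7 : Valued.v (C.r ^ 3 + 16 * d ^ 3) ≤ (Valued.v (C.u : v.adicCompletion N) : ℤᵐ⁰) ^ 6 := by
    rw [e6, map_mul, map_mul, map_pow, val_four _ h3, one_mul, hinv, inv_pow] at h6
    rwa [inv_mul_le_iff₀ (zero_lt_iff.2 (pow_ne_zero 6 hu0)), mul_one] at h6
  rw [val_cube _ h3 hn hd] at h7
  obtain ⟨h8, h9⟩ := max_le_iff.1 h7
  refine ⟨lt_of_le_of_ne h9 ?_, ?_⟩
  · intro h0
    apply not_cube _ h3 hn hd (Valued.v (C.u : v.adicCompletion N) ^ 2)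
    rw [← pow_mul]
    exact h0.symm
  · have e : (Valued.v (C.u : v.adicCompletion N) : ℤᵐ⁰) ^ 6 =
        (Valued.v (C.u : v.adicCompletion N) ^ 2) ^ 3 := by rw [← pow_mul]
    rw [e] at h8
    exact (pow_le_pow_iff_left₀ zero_le zero_le (by norm_num)).1 h8

/-- an integral model of the twist -/
theorem tb_model {d : v.adicCompletion N} (hd : d ≠ 0) (u₀ : (v.adicCompletion N)ˣ)
    (hu : Valued.v (3 : v.adicCompletion N) * Valued.v d ^ 3 ≤
      (Valued.v (u₀ : v.adicCompletion N) : ℤᵐ⁰) ^ 6) :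
    ∃ I : WeierstrassCurve (v.adicCompletionIntegers N),
      (⟨u₀, -d, 0, 0⟩ : VariableChange (v.adicCompletion N)) • tw d =
        I.baseChange (v.adicCompletion N) := by
  obtain ⟨u, hu'⟩ : ∃ u : v.adicCompletion N, u = (u₀ : v.adicCompletion N) := ⟨_, rfl⟩
  have hu00 : u ≠ 0 := by rw [hu']; exact u₀.ne_zero
  rw [← hu'] at hu
  have hu0 : Valued.v u ≠ (0 : ℤᵐ⁰) := (Valuation.ne_zero_iff _).2 hu00
  have hup : 0 < (Valued.v u : ℤᵐ⁰) := zero_lt_iff.2 hu0
  have h30 : 0 < (Valued.v (3 : v.adicCompletion N) : ℤᵐ⁰) := zero_lt_iff.2 (three_ne _ h3 hn)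
  have hd0 : 0 < (Valued.v d : ℤᵐ⁰) := zero_lt_iff.2 ((Valuation.ne_zero_iff _).2 hd)
  have cube_le : ∀ a b : ℤᵐ⁰, a ^ 3 ≤ b ^ 3 → a ≤ b := fun a b h =>
    (pow_le_pow_iff_left₀ zero_le zero_le (by norm_num)).1 h
  have b2 : Valued.v (-(3 * d) / u ^ 2) ≤ (1 : ℤᵐ⁰) := by
    rw [map_div₀, Valuation.map_neg, map_mul, map_pow, div_le_one₀ (pow_pos hup 2)]
    apply cube_le
    rw [mul_pow, ← pow_mul]
    refine le_trans (mul_le_mul_left ?_ _) hu
    exact pow_le_of_le_one zero_le h3.le (by norm_num)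
  have b4 : Valued.v (3 * d ^ 2 / u ^ 4) ≤ (1 : ℤᵐ⁰) := by
    rw [map_div₀, map_mul, map_pow, map_pow, div_le_one₀ (pow_pos hup 4)]
    apply cube_le
    have e1 : ((Valued.v u : ℤᵐ⁰) ^ 4) ^ 3 = (Valued.v u ^ 6) ^ 2 := by
      rw [← pow_mul, ← pow_mul]
    have e2 : ((Valued.v (3 : v.adicCompletion N) : ℤᵐ⁰) * Valued.v d ^ 2) ^ 3 =
        Valued.v (3 : v.adicCompletion N) * (Valued.v (3 : v.adicCompletion N) *
          Valued.v d ^ 3) ^ 2 := by
      rw [mul_pow, mul_pow, ← pow_mul, ← pow_mul, ← mul_assoc, ← pow_succ']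
    rw [e1, e2]
    refine le_trans ?_ (pow_le_pow_left₀ zero_le hu 2)
    exact mul_le_of_le_one_left' h3.le
  have b6 : Valued.v (15 * d ^ 3 / u ^ 6) ≤ (1 : ℤᵐ⁰) := by
    have e : (15 : v.adicCompletion N) = 3 * 5 := by norm_num
    rw [map_div₀, e, map_mul, map_mul, map_pow, map_pow, val_five _ h3, mul_one,
      div_le_one₀ (pow_pos hup 6)]
    exact hu
  refine ⟨⟨0, ⟨_, b2⟩, 0, ⟨_, b4⟩, ⟨_, b6⟩⟩, ?_⟩
  have hin : ((u₀⁻¹ : (v.adicCompletion N)ˣ) : v.adicCompletion N) = u⁻¹ := by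
    rw [Units.val_inv_eq_inv_val, hu']
  refine WeierstrassCurve.ext ?_ ?_ ?_ ?_ ?_
  · rw [variableChange_a₁, hin]
    simp [tw, WeierstrassCurve.baseChange]
  · rw [variableChange_a₂, hin]
    simp only [tw, WeierstrassCurve.baseChange, WeierstrassCurve.map_a₂]
    change _ = -(3 * d) / u ^ 2
    field_simp
    ring
  · rw [variableChange_a₃, hin]
    simp [tw, WeierstrassCurve.baseChange]
  · rw [variableChange_a₄, hin]
    simp only [tw, WeierstrassCurve.baseChange, WeierstrassCurve.map_a₄]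
    change _ = 3 * d ^ 2 / u ^ 4
    field_simp
    ring
  · rw [variableChange_a₆, hin]
    simp only [tw, WeierstrassCurve.baseChange, WeierstrassCurve.map_a₆]
    change _ = 15 * d ^ 3 / u ^ 6
    field_simp
    ring

theorem tb_min {d : v.adicCompletion N} (hd : d ≠ 0) (C : VariableChange (v.adicCompletion N))
    (hm : IsMinimal (v.adicCompletionIntegers N) (C • tw d)) :
    (Valued.v (C.u : v.adicCompletion N) : ℤᵐ⁰) ^ 6 * exp (-6 : ℤ) <
      Valued.v (3 : v.adicCompletion N) * Valued.v d ^ 3 := by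
  by_contra hc
  rw [not_lt] at hc
  obtain ⟨π, hπ⟩ := v.valuedAdicCompletion_surjective N (exp (-1 : ℤ))
  have hπ0 : π ≠ 0 := by
    rintro rfl
    rw [map_zero] at hπ
    exact exp_ne_zero hπ.symm
  obtain ⟨p, hp⟩ : ∃ p : (v.adicCompletion N)ˣ, (p : v.adicCompletion N) = π :=
    ⟨Units.mk0 π hπ0, rfl⟩
  have hv : Valued.v ((C.u * p : (v.adicCompletion N)ˣ) : v.adicCompletion N) =
      (Valued.v (C.u : v.adicCompletion N) : ℤᵐ⁰) * exp (-1 : ℤ) := by
    rw [Units.val_mul, map_mul, hp, hπ]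
  obtain ⟨I, hI⟩ := tb_model v h3 hn hd (C.u * p) (by
    rw [hv, mul_pow, ← exp_nsmul]
    simpa using hc)
  have h1 := min_le _ I hI (C * (⟨C.u * p, -d, 0, 0⟩ : VariableChange (v.adicCompletion N))⁻¹) (by
    rw [mul_smul, inv_smul_smul]
    exact hm)
  rw [mul_smul, inv_smul_smul, variableChange_Δ, variableChange_Δ, map_mul, map_mul, map_pow,
    map_pow] at h1
  have hΔ : Valued.v (tw d).Δ ≠ (0 : ℤᵐ⁰) := by
    rw [Valuation.ne_zero_iff, tw_Δ]
    refine neg_ne_zero.2 (mul_ne_zero (mul_ne_zero (pow_ne_zero _ (two_ne _ h3))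
      (pow_ne_zero _ ?_)) (pow_ne_zero _ hd))
    exact (Valuation.ne_zero_iff _).1 (three_ne _ h3 hn)
  have h2 := le_of_mul_le_mul_right h1 (zero_lt_iff.2 hΔ)
  rw [Units.val_inv_eq_inv_val, Units.val_inv_eq_inv_val, map_inv₀, map_inv₀] at h2
  have hu0 : 0 < (Valued.v (C.u : v.adicCompletion N) : ℤᵐ⁰) :=
    zero_lt_iff.2 ((Valuation.ne_zero_iff _).2 C.u.ne_zero)
  have h4 : ((Valued.v (((⟨C.u * p, -d, 0, 0⟩ : VariableChange (v.adicCompletion N)).u :
      (v.adicCompletion N)ˣ) : v.adicCompletion N) : ℤᵐ⁰))⁻¹ ≤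
        (Valued.v (C.u : v.adicCompletion N))⁻¹ :=
    (pow_le_pow_iff_left₀ zero_le zero_le (by norm_num)).1 h2
  change ((Valued.v ((C.u * p : (v.adicCompletion N)ˣ) : v.adicCompletion N) : ℤᵐ⁰))⁻¹ ≤ _ at h4
  rw [hv, inv_le_inv₀ (mul_pos hu0 exp_pos) hu0] at h4
  have h5 : (Valued.v (C.u : v.adicCompletion N) : ℤᵐ⁰) * exp (-1 : ℤ) <
      Valued.v (C.u : v.adicCompletion N) := by
    refine mul_lt_of_lt_one_right hu0 ?_
    rw [← exp_zero, exp_lt_exp]
    norm_num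
  exact absurd h4 (not_le.2 h5)

/-- the points of a minimal model which are far have a nonsingular reduction -/
theorem tb_index {d : v.adicCompletion N} (hd : d ≠ 0) (C : VariableChange (v.adicCompletion N))
    (hm : IsMinimal (v.adicCompletionIntegers N) (C • tw d)) :
    1 ≤ (ns (C • tw d)).index ∧ (ns (C • tw d)).index ≤ 3 := by
  obtain ⟨I, hI⟩ := min_int _ hm
  obtain ⟨i1, i2⟩ := tb_int v h3 hn hd C I hI
  have i3 := tb_min v h3 hn hd C hm
  obtain ⟨e, he⟩ := Pool.Agent.Lib.MP_1a91b9_nt.exists_point_equiv (tw d) C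
  have hu0 : (C.u : v.adicCompletion N) ≠ 0 := C.u.ne_zero
  have hin : ((C.u⁻¹ : (v.adicCompletion N)ˣ) : v.adicCompletion N) =
      (C.u : v.adicCompletion N)⁻¹ := by
    rw [Units.val_inv_eq_inv_val]
  have hup : 0 < (Valued.v (C.u : v.adicCompletion N) : ℤᵐ⁰) :=
    zero_lt_iff.2 ((Valuation.ne_zero_iff _).2 hu0)
  have hfar : ∀ P : (C • tw d).toAffine.Point, Far Valued.v d (e P) → P ∈ ns (C • tw d) := by
    intro P hP
    apply AddSubgroup.subset_closure
    rcases P with _ | ⟨x, y, hxy⟩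
    · exact Or.inl rfl
    obtain ⟨h', hh'⟩ := he x y hxy
    rw [hh'] at hP
    rcases hP with h0 | ⟨X, Y, hXY, hP1, hP2⟩
    · exact absurd h0 (Affine.Point.some_ne_zero _)
    rw [Affine.Point.some.injEq] at hP1
    obtain ⟨hX, hY⟩ := hP1
    refine Or.inr ⟨x, y, hxy, rfl, ?_⟩
    by_cases hx : 1 < Valued.v x
    · exact Or.inl hx
    rw [not_lt] at hx
    right; left
    have heq := tw_eq hXY
    have hη : 2 * y + (C • tw d).a₁ * x + (C • tw d).a₃ = 2 * Y / (C.u : v.adicCompletion N) ^ 3 := by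
      rw [variableChange_a₁, variableChange_a₃, hin, ← hY]
      simp only [tw]
      field_simp
      ring
    have hρ : Valued.v (X + d) ≤ (Valued.v (C.u : v.adicCompletion N) : ℤᵐ⁰) ^ 2 := by
      have e1 : X + d = (C.u : v.adicCompletion N) ^ 2 * x + (C.r + d) := by rw [← hX]; ring
      rw [e1]
      refine (Valuation.map_add _ _ _).trans (max_le ?_ i2)
      rw [map_mul, map_pow]
      exact mul_le_of_le_one_right' hx
    have hYv : (Valued.v Y : ℤᵐ⁰) ^ 2 = Valued.v (X + d) ^ 3 := by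
      rw [← map_pow, heq, val_cube _ h3 hn hd, max_eq_left hP2.le]
    have hρ3 : (Valued.v (X + d) : ℤᵐ⁰) ^ 3 ≤ Valued.v (C.u : v.adicCompletion N) ^ 6 := by
      have e : (Valued.v (C.u : v.adicCompletion N) : ℤᵐ⁰) ^ 6 =
        (Valued.v (C.u : v.adicCompletion N) ^ 2) ^ 3 := by rw [← pow_mul]
      rw [e]
      exact pow_le_pow_left₀ zero_le hρ 3
    rcases hρ3.lt_or_eq with hlt | heq3
    · exact absurd hYv fun h => parity i3 hP2 hlt h
    · rw [hη, map_div₀, map_mul, val_two _ h3, one_mul, map_pow,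
        div_eq_one_iff_eq (pow_ne_zero 3 hup.ne')]
      rw [← hYv] at heq3
      have e : (Valued.v (C.u : v.adicCompletion N) : ℤᵐ⁰) ^ 6 =
        (Valued.v (C.u : v.adicCompletion N) ^ 3) ^ 2 := by rw [← pow_mul]
      rw [e] at heq3
      exact (pow_left_inj₀ zero_le zero_le two_ne_zero).1 heq3
  refine index_le_three _ fun P Q hP hQ => ?_
  rcases far_or Valued.v h3 hn hd (e P) (e Q) (fun h => hP (hfar P h)) (fun h => hQ (hfar Q h))
    with h | h
  · left
    apply hfar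
    rw [_root_.map_sub]
    exact h
  · right
    apply hfar
    rw [_root_.map_add]
    exact h

end

/-- The Tamagawa numbers of the twists at the places above `3`. -/
theorem tam_le_three {W : WeierstrassCurve N} {D : VariableChange N} {d : N} (hd : d ≠ 0)
    (hD : D • W = tw d) (v : HeightOneSpectrum (𝓞 N)) (h3 : v.valuation N 3 < 1)
    (hn : ∀ γ : ℤᵐ⁰, γ ^ 3 ≠ v.valuation N 3) : 1 ≤ tam W v ∧ tam W v ≤ 3 := by
  have hv3 : Valued.v (3 : v.adicCompletion N) = v.valuation N 3 := by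
    have h := MP_1a91b9_nt.valued_algebraMap (K := N) v (3 : N)
    rwa [map_ofNat] at h
  obtain ⟨C, -, hC⟩ := minModel_tw hD v
  have hm := minModel_isMinimal W v
  rw [tam, nonsing_eq]
  rw [hC] at hm ⊢
  exact tb_index v (by rw [hv3]; exact h3) (by rw [hv3]; exact hn)
    ((map_ne_zero _).2 hd) C hm

end Pool.Agent.Lib.MP_1a91b9_ntT.PL
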