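import Pool.Agent.Lib.MP_1a91b9_ntG.Family
import Pool.Agent.Lib.MP_1a91b9_ntT.P.Lvalue
import Pool.Agent.Lib.MP_1a91b9_ntT.CT.Pd1
import Pool.Agent.Lib.MP_1a91b9_ntT3.S9.Un

/-!
# Valuations above a prime number `ℓ ≠ 3`: periods, discriminants, values of L-functions
-/

set_option autoImplicit false

namespace Pool.Agent.Lib.MP_1a91b9_ntT.PL

open NumberField IsDedekindDomain
open Pool.Agent.Lib.MP_1a91b9_ntT.S4 Pool.Agent.Lib.MP_1a91b9_nt Pool.Agent.Lib.MP_1a91b9_ntG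
open Pool.Agent.Lib.MP_1a91b9_ntT.TW Pool.Agent.Lib.MP_1a91b9_ntT.CT

universe u

/-- `A` lies above `ℓ`. -/
def Ab (ℓ : ℕ) (A : ValuationSubring ℂ) : Prop := (ℓ : ℂ)⁻¹ ∉ A

section
variable {ℓ : ℕ} {A : ValuationSubring ℂ}

theorem Ab.comap (hA : Ab ℓ A) : Ab ℓ (A.comap (starRingEnd ℂ)) := by
  intro h
  rw [ValuationSubring.mem_comap, map_inv₀, Complex.conj_natCast] at h
  exact hA h

theorem Ab.nat (hA : Ab ℓ A) {n : ℕ} (hn : n.Coprime ℓ) : A.valuation (n : ℂ) = 1 :=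
  val_coprime A hA n hn

theorem Ab.int (hA : Ab ℓ A) {n : ℤ} (hn : IsCoprime n (ℓ : ℤ)) : A.valuation (n : ℂ) = 1 := by
  have h1 : n.natAbs.Coprime ℓ := by
    have h2 := Int.isCoprime_iff_gcd_eq_one.1 hn
    rwa [Int.gcd, Int.natAbs_natCast] at h2
  rcases Int.natAbs_eq n with h | h
  · rw [h, Int.cast_natCast]
    exact hA.nat h1
  · rw [h, Int.cast_neg, Valuation.map_neg, Int.cast_natCast]
    exact hA.nat h1

theorem Ab.rat (hA : Ab ℓ A) {q : ℚ} (hn : IsCoprime q.num (ℓ : ℤ)) (hd : q.den.Coprime ℓ) :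
    A.valuation (q : ℂ) = 1 := by
  have h4 : (q : ℂ) * ((q.den : ℕ) : ℂ) = (q.num : ℂ) := by
    rw [Rat.cast_def, div_mul_cancel₀ _ (by exact_mod_cast q.den_nz)]
  have h5 := congrArg A.valuation h4
  rw [map_mul, hA.nat hd, mul_one, hA.int hn] at h5
  exact h5

/-- the value of a real square root -/
theorem val_sqrt {x : ℝ} (hx : 0 ≤ x) (h : A.valuation (x : ℂ) = 1) :
    A.valuation ((Real.sqrt x : ℝ) : ℂ) = 1 := by
  have h3 : ((Real.sqrt x : ℝ) : ℂ) ^ 2 = (x : ℂ) := by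
    rw [← Complex.ofReal_pow, Real.sq_sqrt hx]
  have h4 := congrArg A.valuation h3
  rw [map_pow, h] at h4
  exact (pow_eq_one_iff_of_nonneg zero_le (by norm_num)).1 h4

theorem Ab.sqrt_three (hA : Ab ℓ A) (h3 : Nat.Coprime 3 ℓ) :
    A.valuation ((Real.sqrt 3 : ℝ) : ℂ) = 1 := by
  refine val_sqrt (by norm_num) ?_
  have h := hA.nat h3
  have e : (((3 : ℝ)) : ℂ) = ((3 : ℕ) : ℂ) := by push_cast; rfl
  rw [e]
  exact h

theorem Ab.sqrt_int (hA : Ab ℓ A) {d : ℤ} (hd : IsCoprime d (ℓ : ℤ)) :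
    A.valuation ((Real.sqrt |(d : ℝ)| : ℝ) : ℂ) = 1 := by
  refine val_sqrt (abs_nonneg _) ?_
  rcases abs_choice (d : ℝ) with h | h
  · rw [h, Complex.ofReal_intCast]
    exact hA.int hd
  · rw [h, Complex.ofReal_neg, Valuation.map_neg, Complex.ofReal_intCast]
    exact hA.int hd

/-- the value of the product of the periods of `E` -/
theorem Ab.prod_E (hA : Ab ℓ A) (h3 : Nat.Coprime 3 ℓ) {F : Type*} [Field F] [NumberField F] :
    A.valuation ((∏ v : InfinitePlace F, Per.perAt (E F) v : ℝ) : ℂ) =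
      A.valuation Om ^ (Module.finrank ℚ F) := by
  rw [Per.prod_perAt, Complex.ofReal_mul, Complex.ofReal_pow, Complex.ofReal_pow, map_mul, map_pow,
    map_pow, hA.sqrt_three h3, Per.val_norm_Om, one_pow, one_mul]

/-- the value of the product of the periods of a twist -/
theorem Ab.prod_tw (hA : Ab ℓ A) (h3 : Nat.Coprime 3 ℓ) {F : Type*} [Field F] [NumberField F]
    (d : F) (hd0 : d ≠ 0) (m : ℤ) (hm : IsCoprime m (ℓ : ℤ)) (hd : (m : ℚ) = Algebra.norm ℚ d) :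
    A.valuation ((2 ^ Module.finrank ℚ F * ∏ v : InfinitePlace F, Per.perAt (tw d) v : ℝ) : ℂ)
      = A.valuation Om ^ Module.finrank ℚ F := by
  have hnd : A.valuation ((Real.sqrt |((Algebra.norm ℚ d : ℚ) : ℝ)| : ℝ) : ℂ) = 1 := by
    have h1 := hA.sqrt_int hm
    rw [← hd, Rat.cast_intCast]
    exact h1
  have hn0 : Real.sqrt |((Algebra.norm ℚ d : ℚ) : ℝ)| ≠ 0 := by
    intro h0
    rw [h0] at hnd
    simp at hnd
  have e : (2 ^ Module.finrank ℚ F * ∏ v : InfinitePlace F, Per.perAt (tw d) v : ℝ) *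
      Real.sqrt |((Algebra.norm ℚ d : ℚ) : ℝ)| =
      Real.sqrt 3 ^ npos d * ‖Om‖ ^ Module.finrank ℚ F := by
    rw [CT.prod_tw d hd0]
    field_simp
  have h2 := congrArg (fun z : ℝ => A.valuation (z : ℂ)) e
  simp only [Complex.ofReal_mul, map_mul, hnd, mul_one, Complex.ofReal_pow, map_pow,
    hA.sqrt_three h3, Per.val_norm_Om, one_pow, one_mul] at h2
  rw [Complex.ofReal_mul, map_mul, Complex.ofReal_pow, map_pow]
  exact h2

end

/-- The value of `L(E/F, 1)`, `F` over `K`. -/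
theorem lvalK {ℓ : ℕ} {F : Type u} [Field F] [NumberField F] [Algebra K F]
    (hU : UnitProp 3 ℓ Om F) (hc : NoCube3 F) :
    ∃ g : ℂ → ℂ, Differentiable ℂ g ∧ (∀ s : ℂ, 2 < s.re → g s = (E F).LSeries s) ∧
      ∀ A : ValuationSubring ℂ, Ab ℓ A → A.valuation (g 1) = A.valuation Om ^ Module.finrank ℚ F := by
  obtain ⟨L, hL, hL1, hLW⟩ := hU
  refine ⟨fun s => (starRingEnd ℂ) (L ((starRingEnd ℂ) s)) * L s,
    (differentiable_conj_conj hL).mul hL, fun s hs => ?_, fun A hA => ?_⟩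
  · change (starRingEnd ℂ) (L ((starRingEnd ℂ) s)) * L s = _
    rw [LSeries_E hc s hs, hL1 s hs, hL1 _ (by rw [Complex.conj_re]; exact hs)]
    congr 1
    exact (S4.Lf_conj s).symm
  · change A.valuation ((starRingEnd ℂ) (L ((starRingEnd ℂ) 1)) * L 1) = _
    have e : Module.finrank ℚ F = Module.finrank K F + Module.finrank K F := by
      rw [← Module.finrank_mul_finrank ℚ K F, u4_finrank]
      ring
    rw [map_one, map_mul, Per.val_conj_div (hLW _ hA.comap), Per.val_of_div (hLW _ hA), ← pow_add, e]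

/-- The value of `L(E/N, 1)`, `F = N(√-3)`. -/
theorem lvalN {ℓ : ℕ} {N F : Type u} [Field N] [NumberField N] [Field F] [NumberField F]
    [Algebra N F] [Algebra K F] (hfr : Module.finrank N F = 2)
    (hn : ∀ x : N, algebraMap N F x ≠ algebraMap K F om) (hc : NoCube3 N)
    (hU : UnitProp 3 ℓ Om F) :
    ∃ g : ℂ → ℂ, Differentiable ℂ g ∧ (∀ s : ℂ, 2 < s.re → g s = (E N).LSeries s) ∧
      ∀ A : ValuationSubring ℂ, Ab ℓ A → A.valuation (g 1) = A.valuation Om ^ Module.finrank ℚ N := by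
  obtain ⟨L, hL, hL1, hLW⟩ := hU
  refine ⟨L, hL, fun s hs => ?_, fun A hA => ?_⟩
  · rw [hL1 s hs, LSeries_B hfr hn hc s hs]
    rfl
  · have e : Module.finrank K F = Module.finrank ℚ N := by
      have h1 := Module.finrank_mul_finrank ℚ N F
      have h2 := Module.finrank_mul_finrank ℚ K F
      rw [hfr] at h1
      rw [u4_finrank] at h2
      omega
    rw [Per.val_of_div (hLW _ hA), e]

end Pool.Agent.Lib.MP_1a91b9_ntT.PL
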