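import Pool.Agent.Lib.MP_1a91b9_ntT.CT.Lg2
import Pool.Agent.Lib.MP_1a91b9_ntT.PL.TamB
import Pool.Agent.Lib.MP_1a91b9_ntT.PL.Val
import Pool.Agent.Lib.MP_1a91b9_ntT3.R3.Defs

/-!
# The curve `E` and its twist by `-3`: Tamagawa numbers and the finite part of the period
-/

set_option autoImplicit false

namespace Pool.Agent.Lib.MP_1a91b9_ntT.PL

open NumberField IsDedekindDomain WeierstrassCurve WithZero Pool.Agent.Lib.MP_1a91b9_ntT.S9
open Pool.Agent.Lib.MP_1a91b9_ntT.TW Pool.Agent.Lib.MP_1a91b9_ntT.CT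
open Pool.Agent.Lib.MP_1a91b9_ntT.S4 (NoCube3)
open scoped Classical

universe u

section
variable {N : Type*} [Field N] [NumberField N]

/-- `δ` is `1` or `-3` -/
def OneM3 (δ : 𝓞 N) : Prop := δ = 1 ∨ δ = -3

theorem OneM3.adm {δ : 𝓞 N} (h : OneM3 δ) : Adm N δ := by
  rcases h with rfl | rfl
  · refine ⟨⟨1, 0, by ring⟩, isCoprime_one_left, ?_⟩
    rintro v - ⟨k, hk, -⟩
    exfalso
    have h1 : (1 : 𝓞 N) ∈ v.asIdeal := Ideal.pow_le_self (by omega) hk
    exact v.isPrime.ne_top ((Ideal.eq_top_iff_one _).2 h1)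
  · refine ⟨⟨1, -1, by norm_num⟩, ⟨-1, -1, by norm_num⟩, ?_⟩
    rintro v hv ⟨k, hk, -⟩
    exfalso
    have h1 : (-3 : 𝓞 N) ∈ v.asIdeal := Ideal.pow_le_self (by omega) hk
    exact hv (by rwa [Ideal.neg_mem_iff] at h1)

theorem OneM3.val {δ : 𝓞 N} (h : OneM3 δ) (v : HeightOneSpectrum (𝓞 N))
    (h3 : v.valuation N 3 = 1) : v.valuation N (δ : N) = 1 := by
  rcases h with rfl | rfl
  · exact map_one _
  · change v.valuation N (algebraMap (𝓞 N) N (-3)) = 1
    rw [map_neg, map_ofNat, Valuation.map_neg, h3]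

/-- the norm of `δ` is plus or minus a power of `3` -/
theorem OneM3.norm {δ : 𝓞 N} (h : OneM3 δ) {ℓ : ℕ} (h3 : Nat.Coprime 3 ℓ) :
    ∃ m : ℤ, IsCoprime m (ℓ : ℤ) ∧ (m : ℚ) = Algebra.norm ℚ (δ : N) := by
  rcases h with rfl | rfl
  · refine ⟨1, isCoprime_one_left, ?_⟩
    rw [Int.cast_one]
    exact (_root_.map_one (Algebra.norm ℚ)).symm
  · refine ⟨(-3) ^ Module.finrank ℚ N, ?_, ?_⟩
    · refine IsCoprime.pow_left ?_
      rw [IsCoprime.neg_left_iff]
      exact_mod_cast Nat.isCoprime_iff_coprime.2 h3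
    · change _ = Algebra.norm ℚ (algebraMap (𝓞 N) N (-3))
      have e : algebraMap (𝓞 N) N (-3) = algebraMap ℚ N (-3) := by
        rw [map_neg, map_neg, map_ofNat, map_ofNat]
      rw [e, Algebra.norm_algebraMap]
      push_cast
      rfl

theorem OneM3.ne {δ : 𝓞 N} (h : OneM3 δ) : (δ : N) ≠ 0 := fun h0 =>
  adm_ne_zero h.adm (RingOfIntegers.ext h0)

theorem val_le_one_nat (v : HeightOneSpectrum (𝓞 N)) (n : ℕ) : v.valuation N (n : N) ≤ 1 := by
  have h : v.valuation N (algebraMap (𝓞 N) N (n : 𝓞 N)) ≤ 1 :=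
    HeightOneSpectrum.valuation_le_one (K := N) v (n : 𝓞 N)
  rwa [map_natCast (algebraMap (𝓞 N) N) n] at h

/-- the places of good reduction -/
theorem tam_good_tw {W : WeierstrassCurve N} {D : VariableChange N} {δ : 𝓞 N} (hδ : OneM3 δ)
    (hD : D • W = tw (δ : N)) (v : HeightOneSpectrum (𝓞 N)) (h3 : v.valuation N 3 = 1) :
    tam W v = 1 ∧ Valued.v (uu W D v) = v.valuation N 2 := by
  have hval : ∀ x : N, Valued.v (algebraMap N (v.adicCompletion N) x) = v.valuation N x := fun x =>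
    HeightOneSpectrum.valuedAdicCompletion_eq_valuation' v x
  rcases (val_le_one_nat v 2).lt_or_eq with h2 | h2
  · have h2' : v.valuation N 2 < 1 := by exact_mod_cast h2
    refine ⟨?_, val_u_two hδ.adm hD v h2'⟩
    obtain ⟨a, b, hab⟩ := hδ.adm.sq
    obtain ⟨C, -, hC⟩ := minModel_tw hD v
    have hδe : algebraMap N (v.adicCompletion N) (δ : N) =
        algebraMap N (v.adicCompletion N) (a : N) ^ 2 +
          4 * algebraMap N (v.adicCompletion N) (b : N) := by
      have h5 : (δ : N) = (a : N) ^ 2 + 4 * (b : N) := by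
        show algebraMap (𝓞 N) N δ = (algebraMap (𝓞 N) N a) ^ 2 + 4 * algebraMap (𝓞 N) N b
        rw [hab, map_add, map_mul, map_pow, map_ofNat]
      rw [h5, map_add, map_mul, map_pow, map_ofNat]
    have hm := minModel_isMinimal W v
    rw [tam, nonsing_eq]
    rw [hC, hδe] at hm ⊢
    have h6 := (ns_two h2' (algebraMap N (v.adicCompletion N) (a : N))
      (algebraMap N (v.adicCompletion N) (b : N))
      (by rw [hval]; exact HeightOneSpectrum.valuation_le_one v a)
      (by rw [hval]; exact HeightOneSpectrum.valuation_le_one v b)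
      (by rw [← hδe, hval, hδ.val v h3]) C hm).1
    rw [h6, AddSubgroup.index_top]
  · have h2' : v.valuation N 2 = 1 := by exact_mod_cast h2
    obtain ⟨C, hCu, hC⟩ := minModel_tw hD v
    have hm := minModel_isMinimal W v
    have hu := u_even h2' h3 (algebraMap N (v.adicCompletion N) (δ : N))
      (by rw [hval, hδ.val v h3]) C (by rw [← hC]; exact hm)
    rw [← hCu, hu, h2']
    refine ⟨?_, rfl⟩
    rw [tam, nonsing_eq]
    rw [hC] at hm ⊢
    rw [ns_even h2' h3 _ 0 (by rw [hval, hδ.val v h3, mul_zero, exp_zero]) C hm,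
      AddSubgroup.index_top]

theorem tam_coprime (hN : NoCube3 N) {W : WeierstrassCurve N} {D : VariableChange N} {δ : 𝓞 N}
    (hδ : OneM3 δ) (hD : D • W = tw (δ : N)) {ℓ : ℕ} (hℓ : ℓ.Prime) (h5 : 5 ≤ ℓ)
    (v : HeightOneSpectrum (𝓞 N)) : (tam W v).Coprime ℓ := by
  rcases (val_le_one_nat v 3).lt_or_eq with h3 | h3
  · have h3' : v.valuation N 3 < 1 := by exact_mod_cast h3
    have hmem : (3 : 𝓞 N) ∈ v.asIdeal := by
      rw [← HeightOneSpectrum.valuation_lt_one_iff_mem (K := N)]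
      show v.valuation N (algebraMap (𝓞 N) N 3) < 1
      rw [map_ofNat]
      exact h3'
    obtain ⟨h1, h2⟩ := tam_le_three hδ.ne hD v h3' (hN v hmem)
    rw [Nat.coprime_comm, Nat.Prime.coprime_iff_not_dvd hℓ]
    intro hd
    have := Nat.le_of_dvd (by omega) hd
    omega
  · have h3' : v.valuation N 3 = 1 := by exact_mod_cast h3
    rw [(tam_good_tw hδ hD v h3').1]
    exact Nat.coprime_one_left ℓ

/-- the norm of a place above `3` -/
theorem absNorm_coprime (v : HeightOneSpectrum (𝓞 N)) (h3 : v.valuation N 3 < 1) {ℓ : ℕ}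
    (hl : Nat.Coprime 3 ℓ) : (Ideal.absNorm v.asIdeal).Coprime ℓ := by
  have h1 : (3 : 𝓞 N) ∈ v.asIdeal := by
    have e : v.valuation N (algebraMap (𝓞 N) N 3) < 1 := by
      rwa [map_ofNat]
    exact (v.valuation_lt_one_iff_mem (K := N) 3).1 e
  have h2 : Ideal.absNorm v.asIdeal ∣ Ideal.absNorm (Ideal.span {(3 : 𝓞 N)}) :=
    Ideal.absNorm_dvd_absNorm_of_le ((Ideal.span_singleton_le_iff_mem _).2 h1)
  rw [Ideal.absNorm_span_singleton] at h2
  have h4 : (Algebra.norm ℤ (3 : 𝓞 N)).natAbs = 3 ^ Module.finrank ℤ (𝓞 N) := by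
    have e : (3 : 𝓞 N) = algebraMap ℤ (𝓞 N) 3 := by simp
    rw [e, Algebra.norm_algebraMap, Int.natAbs_pow]
    rfl
  rw [h4] at h2
  exact Nat.Coprime.coprime_dvd_left h2 (Nat.Coprime.pow_left _ hl)

theorem finprod_norm3 {W : WeierstrassCurve N} {D : VariableChange N} {δ : 𝓞 N} (hδ : OneM3 δ)
    (hD : D • W = tw (δ : N)) {ℓ : ℕ} (hl : Nat.Coprime 3 ℓ) :
    ∃ κ : ℚ, (∀ A : ValuationSubring ℂ, Ab ℓ A → A.valuation (κ : ℂ) = 1) ∧
      ∏ᶠ v : HeightOneSpectrum (𝓞 N), normFactor W v =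
        (κ : ℝ) * |(Algebra.norm ℚ (D.u : N) : ℝ)| * 2 ^ Module.finrank ℚ N := by
  have h20 : (2 : N) ≠ 0 := two_ne_zero
  have hD0 : (D.u : N) ≠ 0 := D.u.ne_zero
  have hv2 : ∀ v : HeightOneSpectrum (𝓞 N), v.valuation N 2 ≠ 0 := fun v =>
    (Valuation.ne_zero_iff _).2 h20
  have hvD : ∀ v : HeightOneSpectrum (𝓞 N), v.valuation N (D.u : N) ≠ 0 := fun v =>
    (Valuation.ne_zero_iff _).2 hD0
  have hum : ∀ v : HeightOneSpectrum (𝓞 N), ((minChange W v).u : v.adicCompletion N) =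
      uu W D v * algebraMap N (v.adicCompletion N) (D.u : N) := by
    intro v
    rw [uu, div_mul_cancel₀]
    exact (map_ne_zero _).2 hD0
  have hvu : ∀ v : HeightOneSpectrum (𝓞 N), Valued.v (uu W D v) ≠ (0 : ℤᵐ⁰) := by
    intro v
    rw [Valuation.ne_zero_iff]
    intro h0
    have := hum v
    rw [h0, zero_mul] at this
    exact (minChange W v).u.ne_zero this
  set a : HeightOneSpectrum (𝓞 N) → ℤᵐ⁰ := fun v => Valued.v (uu W D v) / v.valuation N 2 with ha
  have ha0 : ∀ v, a v ≠ 0 := fun v => div_ne_zero (hvu v) (hv2 v)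
  have hfac : ∀ v : HeightOneSpectrum (𝓞 N), normFactor W v =
      qp v (a v) * qp v (v.valuation N 2) * qp v (v.valuation N (D.u : N)) := by
    intro v
    have e1 : normFactor W v = qp v (Valued.v ((minChange W v).u : v.adicCompletion N)) := rfl
    have e2 : Valued.v ((minChange W v).u : v.adicCompletion N) =
        a v * v.valuation N 2 * v.valuation N (D.u : N) := by
      rw [hum, map_mul, MP_1a91b9_nt.valued_algebraMap, ha]
      simp only
      rw [div_mul_cancel₀ _ (hv2 v)]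
    rw [e1, e2, qp_mul v (mul_ne_zero (ha0 v) (hv2 v)) (hvD v), qp_mul v (ha0 v) (hv2 v)]
  have hs1 : (Function.mulSupport fun v : HeightOneSpectrum (𝓞 N) => qp v (a v)).Finite := by
    refine (finite_bad hδ.adm hD).subset fun v hv => ?_
    rw [Function.mem_mulSupport] at hv
    intro h
    apply hv
    have : a v = 1 := by
      rw [ha]
      simp only
      rw [h, div_self (hv2 v)]
    rw [this, qp_one]
  have hs2 := qp_finite (N := N) 2 h20
  have hs3 := qp_finite (N := N) (D.u : N) hD0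
  have hs12 : (Function.mulSupport fun v : HeightOneSpectrum (𝓞 N) =>
      qp v (a v) * qp v (v.valuation N 2)).Finite :=
    (hs1.union hs2).subset (Function.mulSupport_mul _ _)
  have hprod : ∏ᶠ v : HeightOneSpectrum (𝓞 N), normFactor W v =
      (∏ᶠ v : HeightOneSpectrum (𝓞 N), qp v (a v)) * 2 ^ Module.finrank ℚ N *
        |(Algebra.norm ℚ (D.u : N) : ℝ)| := by
    rw [finprod_congr hfac, finprod_mul_distrib hs12 hs3, finprod_mul_distrib hs1 hs2,
      prod_qp _ h20, prod_qp _ hD0]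
    congr 2
    have e : (2 : N) = algebraMap ℚ N 2 := by rw [map_ofNat]
    rw [e, Algebra.norm_algebraMap]
    push_cast
    rw [abs_of_pos (by positivity)]
  have hκ : ∃ q : ℚ, (q : ℝ) = ∏ᶠ v : HeightOneSpectrum (𝓞 N), qp v (a v) ∧
      ∀ A : ValuationSubring ℂ, Ab ℓ A → A.valuation (q : ℂ) = 1 := by
    refine finprod_induction (p := fun x : ℝ => ∃ q : ℚ, (q : ℝ) = x ∧
      ∀ A : ValuationSubring ℂ, Ab ℓ A → A.valuation (q : ℂ) = 1) ?_ ?_ ?_
    · exact ⟨1, by norm_num, fun A _ => by rw [Rat.cast_one, map_one]⟩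
    · rintro x y ⟨q, hq, hq'⟩ ⟨r, hr, hr'⟩
      refine ⟨q * r, by rw [← hq, ← hr]; push_cast; rfl, fun A hA => ?_⟩
      rw [Rat.cast_mul, map_mul, hq' A hA, hr' A hA, one_mul]
    · intro v
      rcases (val_le_one_nat v 3).lt_or_eq with h | h
      · have h3 : v.valuation N 3 < 1 := by exact_mod_cast h
        refine ⟨(Ideal.absNorm v.asIdeal : ℚ) ^ (-(log (a v))), ?_, fun A hA => ?_⟩
        · rw [qp]
          push_cast
          rfl
        · rw [Rat.cast_zpow, Rat.cast_natCast, map_zpow₀, hA.nat (absNorm_coprime v h3 hl),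
            one_zpow]
      · have h3 : v.valuation N 3 = 1 := by exact_mod_cast h
        refine ⟨1, ?_, fun A _ => by rw [Rat.cast_one, map_one]⟩
        have e : a v = 1 := by
          rw [ha]
          simp only
          rw [(tam_good_tw hδ hD v h3).2, div_self (hv2 v)]
        rw [e, qp_one, Rat.cast_one]
  obtain ⟨q, hq, hqA⟩ := hκ
  refine ⟨q, hqA, ?_⟩
  rw [hprod, hq]
  ring

theorem prod_tw_pos' (d : N) (hd : d ≠ 0) : 0 < ∏ v : InfinitePlace N, Per.perAt (tw d) v := by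
  have h := norm_pos_iff.2 Om_ne_zero
  have h2 : 0 < |(Algebra.norm ℚ d : ℝ)| := by
    rw [abs_pos]
    exact_mod_cast (Algebra.norm_ne_zero_iff.2 hd)
  rw [CT.prod_tw d hd]
  positivity

/-- The period. -/
theorem period_tw {W : WeierstrassCurve N} {D : VariableChange N} {δ : 𝓞 N} (hδ : OneM3 δ)
    (hD : D • W = tw (δ : N)) {ℓ : ℕ} (hl : Nat.Coprime 3 ℓ) :
    (period W ≠ 0) ∧ (∀ A : ValuationSubring ℂ, Ab ℓ A →
      A.valuation ((period W : ℝ) : ℂ) = A.valuation Om ^ Module.finrank ℚ N) := by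
  obtain ⟨κ, hκ, hκ2⟩ := finprod_norm3 hδ hD hl
  have h1 := prod_vc W D
  rw [hD] at h1
  have hper : period W = (κ : ℝ) * (2 ^ Module.finrank ℚ N *
      ∏ v : InfinitePlace N, Per.perAt (tw (δ : N)) v) := by
    rw [period, hκ2, h1]
    ring
  obtain ⟨m, hm, hm2⟩ := hδ.norm hl
  have hv : ∀ A : ValuationSubring ℂ, Ab ℓ A →
      A.valuation ((period W : ℝ) : ℂ) = A.valuation Om ^ Module.finrank ℚ N := by
    intro A hA
    rw [hper, Complex.ofReal_mul, map_mul, Complex.ofReal_ratCast, hκ A hA, one_mul]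
    exact hA.prod_tw hl _ hδ.ne m hm hm2
  refine ⟨?_, hv⟩
  have hne := MP_1a91b9_ntT3.S9.finprod_normFactor_ne W
  have hP : ∏ v : InfinitePlace N, Per.perAt W v ≠ 0 := by
    intro h0
    rw [h0, mul_zero] at h1
    exact (prod_tw_pos' _ hδ.ne).ne' h1
  exact mul_ne_zero hne hP

end

end Pool.Agent.Lib.MP_1a91b9_ntT.PL
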