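import Pool.Agent.Lib.MP_1a91b9_ntT.PL.Main
import Pool.Agent.Lib.MP_1a91b9_ntT.DS.Main
import Pool.Agent.Lib.MP_1a91b9_ntT.DH.Main

/-!
# The fields of the towers of Theorem D
-/

set_option autoImplicit false

namespace Pool.Agent.Lib.MP_1a91b9_ntT.PL

open NumberField IsDedekindDomain WeierstrassCurve Module DB DX DS
open scoped Classical

universe u

theorem goodF_tower {ℓ : ℕ} [hℓ : Fact ℓ.Prime] (h5 : 5 ≤ ℓ) (F : Type u) [Field F]
    [NumberField F] [Algebra K F] (h : TowerL ℓ F) : GoodF ℓ F := by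
  obtain ⟨ϖ, q, hp⟩ := DX.exists_pd hℓ.out h5
  have hp' := pd_cj hp
  obtain ⟨h1, h2, h3⟩ := tower_alg hp (fun k _ _ _ hk => base_VT hp k hk)
    (fun k _ _ _ hk => base_DT hp k hk) F h
  have h4 := tower_DTb hp (cj ϖ) (fun k _ _ _ hk =>
    dtb_cj_base hp k hk (unr_base hℓ.out h5 k hk)) F h
  obtain ⟨h1', h2', -⟩ := tower_alg hp' (fun k _ _ _ hk => base_VT hp' k hk)
    (fun k _ _ _ hk => base_DT hp' k hk) F h
  have h4' := tower_DTb hp' (cj (cj ϖ)) (fun k _ _ _ hk =>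
    dtb_cj_base hp' k hk (unr_base hℓ.out h5 k hk)) F h
  have hfin : Finite (Pt F) := DX.top hp h1 h3 h2 h4
  have hd1 := exists_divisor hp h1 h3 h2 h4
  have hd2 := exists_divisor hp' h1' h3 h2' h4'
  rw [cj_cj] at hd2
  have h4'' : DTb ϖ (cj ϖ) F := by
    rw [cj_cj] at h4'
    exact h4'
  have hcop := coprime_card hp hfin hd1 hd2
  obtain ⟨hf, hc⟩ := pt_card F hfin
  refine ⟨h3, unitProp_tower hℓ.out h5 h, noCube_tower hℓ.out h5 h,
    no_cube_two (not_three_dvd hℓ.out h5 h), hf, ?_, ?_⟩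
  · rw [hc]
    exact hcop
  · exact DH.sha_primary hp h3 h1 h1' h2 h2' h4 h4''

end Pool.Agent.Lib.MP_1a91b9_ntT.PL
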